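import Pool.Agent.H90.MT.Tensor

/-! Quadratic form bounds for `EE`, re-expansion, combinatorics of colourings. -/

set_option autoImplicit false
open Finset

namespace Pool.Agent.H90.MT

variable {P : Finset ℕ} {k : ℕ}

/-! ### one prime -/

theorem sum_psi (q : Fin k → ℝ) (v : Option (Fin k) → ℝ) (a : Option (Fin k)) :
    ∑ o, v o * psi q o a = v none - (∑ j, q j * v (some j)) + Option.elim a 0 (fun j => v (some j)) := by
  rw [Fintype.sum_option]
  simp only [psi, mul_one, mul_sub, mul_ite, mul_zero, Finset.sum_sub_distrib]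
  have : ∑ x : Fin k, (if a = some x then v (some x) else 0) = Option.elim a 0 (fun j => v (some j)) := by
    cases a with
    | none => simp
    | some j => simp
  rw [this]
  have h2 : ∑ x : Fin k, v (some x) * q x = ∑ j, q j * v (some j) :=
    Finset.sum_congr rfl fun _ _ => mul_comm _ _
  rw [h2]
  ring

/-- exact value of the one-prime quadratic form -/
theorem one_prime (q : Fin k → ℝ) (v : Option (Fin k) → ℝ) :
    ∑ a, ww q a * (∑ o, v o * psi q o a) ^ 2 =
      v none ^ 2 + ∑ j, q j * v (some j) ^ 2 - (∑ j, q j * v (some j)) ^ 2 := by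
  simp_rw [sum_psi]
  rw [Fintype.sum_option]
  simp only [ww, Option.elim_none, Option.elim_some, add_zero]
  set s := ∑ j, q j * v (some j) with hs
  have : ∑ x : Fin k, q x * (v none - s + v (some x)) ^ 2 =
      (v none - s) ^ 2 * ∑ x, q x + 2 * (v none - s) * s + ∑ x, q x * v (some x) ^ 2 := by
    rw [hs, Finset.mul_sum, Finset.mul_sum, ← Finset.sum_add_distrib, ← Finset.sum_add_distrib]
    refine Finset.sum_congr rfl fun x _ => ?_
    ring
  rw [this]
  ring

/-- diagonal weights -/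
noncomputable def dw (t : ℝ) (q : Fin k → ℝ) (a : Option (Fin k)) : ℝ :=
  match a with
  | none => 1
  | some j => t * q j

/-- the Kronecker kernel -/
noncomputable def dl (o a : Option (Fin k)) : ℝ := if o = a then 1 else 0

theorem one_diag (t : ℝ) (q : Fin k → ℝ) (v : Option (Fin k) → ℝ) :
    ∑ a, dw t q a * (∑ o, v o * dl o a) ^ 2 = v none ^ 2 + t * ∑ j, q j * v (some j) ^ 2 := by
  simp only [dl, mul_ite, mul_one, mul_zero, Finset.sum_ite_eq', Finset.mem_univ, if_true]
  rw [Fintype.sum_option]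
  simp only [dw, one_mul]
  rw [Finset.mul_sum]
  congr 1
  refine Finset.sum_congr rfl fun x _ => ?_
  ring

theorem one_upper (q : Fin k → ℝ) (v : Option (Fin k) → ℝ) :
    ∑ a, ww q a * (∑ o, v o * psi q o a) ^ 2 ≤ ∑ a, dw 1 q a * (∑ o, v o * dl o a) ^ 2 := by
  rw [one_prime, one_diag]
  nlinarith [sq_nonneg (∑ j, q j * v (some j))]

theorem one_lower (q : Fin k → ℝ) (hq : ∀ j, 0 ≤ q j) (v : Option (Fin k) → ℝ) :
    ∑ a, dw (1 - ∑ j, q j) q a * (∑ o, v o * dl o a) ^ 2 ≤ ∑ a, ww q a * (∑ o, v o * psi q o a) ^ 2 := by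
  rw [one_prime, one_diag]
  have h := Finset.sum_mul_sq_le_sq_mul_sq (Finset.univ : Finset (Fin k)) (fun j => Real.sqrt (q j))
    (fun j => Real.sqrt (q j) * v (some j))
  have e1 : ∑ i : Fin k, Real.sqrt (q i) * (Real.sqrt (q i) * v (some i)) = ∑ j, q j * v (some j) := by
    refine Finset.sum_congr rfl fun x _ => ?_
    rw [← mul_assoc, Real.mul_self_sqrt (hq x)]
  have e2 : ∑ i : Fin k, Real.sqrt (q i) ^ 2 = ∑ j, q j :=
    Finset.sum_congr rfl fun x _ => Real.sq_sqrt (hq x)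
  have e3 : ∑ i : Fin k, (Real.sqrt (q i) * v (some i)) ^ 2 = ∑ j, q j * v (some j) ^ 2 := by
    refine Finset.sum_congr rfl fun x _ => ?_
    rw [mul_pow, Real.sq_sqrt (hq x)]
  rw [e1, e2, e3] at h
  nlinarith

theorem sum_ww (q : Fin k → ℝ) : ∑ a, ww q a = 1 := by
  rw [Fintype.sum_option]
  simp [ww]

theorem ww_nonneg (q : Fin k → ℝ) (h0 : ∀ j, 0 ≤ q j) (h1 : ∑ j, q j ≤ 1) (a : Option (Fin k)) :
    0 ≤ ww q a := by
  cases a with
  | none => simp only [ww]; linarith
  | some j => exact h0 j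

theorem dw_nonneg (t : ℝ) (ht : 0 ≤ t) (q : Fin k → ℝ) (h0 : ∀ j, 0 ≤ q j) (a : Option (Fin k)) :
    0 ≤ dw t q a := by
  cases a with
  | none => simp [dw]
  | some j => exact mul_nonneg ht (h0 j)

/-! ### tensorised -/

theorem prod_dl (c a : Col P k) : ∏ p : {p // p ∈ P}, dl (c p) (a p) = if c = a then 1 else 0 := by
  split_ifs with h
  · subst h
    simp [dl]
  · have : ∃ p, c p ≠ a p := by
      by_contra hcon
      push Not at hcon
      exact h (funext hcon)
    obtain ⟨p, hp⟩ := this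
    exact Finset.prod_eq_zero (Finset.mem_univ p) (by simp [dl, hp])

theorem sum_dl (z : Col P k → ℝ) (a : Col P k) :
    ∑ c : Col P k, z c * ∏ p : {p // p ∈ P}, dl (c p) (a p) = z a := by
  simp_rw [prod_dl]
  simp

/-- upper bound for the quadratic form -/
theorem EE_upper (q : ℕ → Fin k → ℝ) (h0 : ∀ p ∈ P, ∀ j, 0 ≤ q p j) (h1 : ∀ p ∈ P, ∑ j, q p j ≤ 1)
    (z : Col P k → ℝ) :
    EE q (fun a : Col P k => (∑ c : Col P k, z c * ∏ p : {p // p ∈ P}, psi (q p) (c p) (a p)) ^ 2) ≤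
      ∑ c : Col P k, (∏ p : {p // p ∈ P}, dw 1 (q p) (c p)) * z c ^ 2 := by
  have := tensor (ι := {p // p ∈ P}) (K := Option (Fin k)) (fun p a => ww (q p) a)
    (fun p a => dw 1 (q p) a) (fun p => psi (q p)) (fun _ => dl)
    (fun p a => ww_nonneg _ (h0 p p.2) (h1 p p.2) a)
    (fun p a => dw_nonneg 1 zero_le_one _ (h0 p p.2) a)
    (fun p v => one_upper _ v) z
  refine this.trans (le_of_eq ?_)
  refine Finset.sum_congr rfl fun a _ => ?_
  rw [sum_dl]

/-- lower bound for the quadratic form -/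
theorem EE_lower (q : ℕ → Fin k → ℝ) (h0 : ∀ p ∈ P, ∀ j, 0 ≤ q p j) (h1 : ∀ p ∈ P, ∑ j, q p j ≤ 1)
    (z : Col P k → ℝ) :
    ∑ c : Col P k, (∏ p : {p // p ∈ P}, dw (1 - ∑ j, q p j) (q p) (c p)) * z c ^ 2 ≤
    EE q (fun a : Col P k => (∑ c : Col P k, z c * ∏ p : {p // p ∈ P}, psi (q p) (c p) (a p)) ^ 2) := by
  have := tensor (ι := {p // p ∈ P}) (K := Option (Fin k)) (fun p a => dw (1 - ∑ j, q p j) (q p) a)
    (fun p a => ww (q p) a) (fun _ => dl) (fun p => psi (q p))
    (fun p a => dw_nonneg _ (sub_nonneg.2 (h1 p p.2)) _ (h0 p p.2) a)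
    (fun p a => ww_nonneg _ (h0 p p.2) (h1 p p.2) a)
    (fun p v => one_lower _ (h0 p p.2) v) z
  refine le_trans (le_of_eq ?_) this
  refine Finset.sum_congr rfl fun a _ => ?_
  rw [sum_dl]

/-! ### re-expansion -/

/-- transition kernel -/
noncomputable def mx (m : Fin k → ℝ) (o s : Option (Fin k)) : ℝ :=
  if o = s then 1 else Option.elim o 0 (fun j => if s = none then m j else 0)

theorem psi_expand (q q' : Fin k → ℝ) (o a : Option (Fin k)) :
    psi q' o a = ∑ s, mx (fun j => q j - q' j) o s * psi q s a := by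
  rw [Fintype.sum_option]
  cases o with
  | none =>
    simp [mx, psi]
  | some j =>
    have : ∑ i : Fin k, mx (fun j => q j - q' j) (some j) (some i) * psi q (some i) a =
        psi q (some j) a := by
      rw [Finset.sum_eq_single j]
      · simp [mx]
      · intro b _ hb
        have : ¬ (some j = some b) := by simpa using (Ne.symm hb)
        simp [mx, this]
      · simp
    rw [this]
    simp [mx, psi]

/-- the coefficients in the new basis -/
noncomputable def zt (g : ℕ → ℝ) (R : ℝ) (q : ℕ → Fin k → ℝ) (r : Col P k) : ℝ :=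
  ∑ c : Col P k, zz g R c * ∏ p : {p // p ∈ P}, mx (fun j => q p j - 1 / ((p : ℕ) : ℝ)) (c p) (r p)

theorem Lam_expand (g : ℕ → ℝ) (R : ℝ) (q : ℕ → Fin k → ℝ) (a : Col P k) :
    Lam g R a = ∑ r : Col P k, zt g R q r * ∏ p : {p // p ∈ P}, psi (q p) (r p) (a p) := by
  unfold Lam zt
  simp_rw [Finset.sum_mul]
  rw [Finset.sum_comm]
  refine Finset.sum_congr rfl fun c _ => ?_
  simp_rw [mul_assoc]
  rw [← Finset.mul_sum]
  congr 1
  simp_rw [← Finset.prod_mul_distrib]
  rw [← Fintype.prod_sum (fun (p : {p // p ∈ P}) (s : Option (Fin k)) =>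
    mx (fun j => q p j - 1 / ((p : ℕ) : ℝ)) (c p) s * psi (q p) s (a p))]
  refine Finset.prod_congr rfl fun p _ => ?_
  exact psi_expand (q p) _ _ _

end Pool.Agent.H90.MT
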