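import Pool.Agent.H90.MT.Basic

/-! Combinatorics of colourings. -/

set_option autoImplicit false
open Finset

namespace Pool.Agent.H90.MT

variable {P : Finset ℕ} {k : ℕ}

/-- the set of primes of colour `j` -/
def cset (c : Col P k) (j : Fin k) : Finset ℕ :=
  (Finset.univ.filter fun p : {p // p ∈ P} => c p = some j).map (Function.Embedding.subtype _)

theorem mem_cset (c : Col P k) (j : Fin k) (x : ℕ) :
    x ∈ cset c j ↔ ∃ h : x ∈ P, c ⟨x, h⟩ = some j := by
  unfold cset
  simp

theorem cset_subset (c : Col P k) (j : Fin k) : cset c j ⊆ P := by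
  intro x hx
  obtain ⟨h, _⟩ := (mem_cset c j x).1 hx
  exact h

theorem prod_cset {M : Type} [CommMonoid M] (c : Col P k) (j : Fin k) (f : ℕ → M) :
    ∏ p ∈ cset c j, f p = ∏ p : {p // p ∈ P}, if c p = some j then f p else 1 := by
  unfold cset
  rw [Finset.prod_map, Finset.prod_filter]
  rfl

theorem part_eq (c : Col P k) (j : Fin k) : part c j = ∏ p ∈ cset c j, p := by
  rw [prod_cset]
  rfl

theorem prod_wt {M : Type} [CommMonoid M] (u : ℕ → Fin k → M) (c : Col P k) :
    ∏ p : {p // p ∈ P}, Option.elim (c p) 1 (u p) = ∏ j, ∏ p ∈ cset c j, u p j := by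
  simp_rw [prod_cset]
  rw [Finset.prod_comm]
  refine Finset.prod_congr rfl fun p _ => ?_
  cases h : c p with
  | none => simp
  | some j => simp

theorem nn_eq (c : Col P k) : nn c = ∏ j, ∏ p ∈ cset c j, p := by
  rw [← prod_wt (fun p _ => p) c]
  unfold nn
  refine Finset.prod_congr rfl fun p _ => ?_
  cases h : c p with
  | none => simp
  | some j => simp

theorem nn_eq_part (c : Col P k) : nn c = ∏ j, part c j := by
  rw [nn_eq]
  exact Finset.prod_congr rfl fun j _ => (part_eq c j).symm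

theorem cset_injective : Function.Injective (cset : Col P k → Fin k → Finset ℕ) := by
  intro c c' h
  funext p
  cases hc : c p with
  | none =>
    cases hc' : c' p with
    | none => rfl
    | some j =>
      have h1 : (p : ℕ) ∈ cset c' j := (mem_cset c' j p).2 ⟨p.2, hc'⟩
      rw [← h] at h1
      obtain ⟨h2, h3⟩ := (mem_cset c j p).1 h1
      have : c p = some j := h3
      rw [hc] at this
      exact absurd this (by simp)
  | some j =>
    have h1 : (p : ℕ) ∈ cset c j := (mem_cset c j p).2 ⟨p.2, hc⟩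
    rw [h] at h1
    obtain ⟨h2, h3⟩ := (mem_cset c' j p).1 h1
    have : c' p = some j := h3
    rw [this]

/-- dropping disjointness -/
theorem sum_col_le (C : Finset (Col P k)) (S : Fin k → Finset (Finset ℕ)) (F : Fin k → Finset ℕ → ℝ)
    (hS : ∀ c ∈ C, ∀ j, cset c j ∈ S j) (hF : ∀ j, ∀ D ∈ S j, 0 ≤ F j D) :
    ∑ c ∈ C, ∏ j, F j (cset c j) ≤ ∏ j, ∑ D ∈ S j, F j D := by
  rw [Finset.prod_univ_sum]
  have e1 : ∑ c ∈ C, ∏ j, F j (cset c j) = ∑ D ∈ C.image cset, ∏ j, F j (D j) := by
    rw [Finset.sum_image]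
    intro a _ b _ h
    exact cset_injective h
  rw [e1]
  refine Finset.sum_le_sum_of_subset_of_nonneg ?_ ?_
  · intro D hD
    obtain ⟨c, hc, rfl⟩ := Finset.mem_image.1 hD
    rw [Fintype.mem_piFinset]
    exact fun j => hS c hc j
  · intro D hD _
    rw [Fintype.mem_piFinset] at hD
    exact Finset.prod_nonneg fun j _ => hF j _ (hD j)

/-- realise a disjoint tuple by a colouring -/
theorem exists_col (D : Fin k → Finset ℕ) (hD : ∀ j, D j ⊆ P)
    (hdisj : ∀ i j, i ≠ j → Disjoint (D i) (D j)) : ∃ c : Col P k, cset c = D := by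
  classical
  refine ⟨fun p => if h : ∃ j, (p : ℕ) ∈ D j then some h.choose else none, ?_⟩
  funext j
  ext x
  rw [mem_cset]
  constructor
  · rintro ⟨h, h2⟩
    by_cases h3 : ∃ j, x ∈ D j
    · rw [dif_pos h3] at h2
      have h4 := Option.some.inj h2
      rw [← h4]
      exact h3.choose_spec
    · rw [dif_neg h3] at h2
      exact absurd h2 (by simp)
  · intro hx
    refine ⟨hD j hx, ?_⟩
    have h3 : ∃ j, x ∈ D j := ⟨j, hx⟩
    rw [dif_pos h3]
    congr 1
    by_contra hne
    have := hdisj _ _ hne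
    rw [Finset.disjoint_left] at this
    exact this h3.choose_spec hx

/-- sum over colourings, fibred over the set of colour `m` -/
theorem sum_fiber (F : Finset ℕ → ℝ) (m : Fin k) (h : {p // p ∈ P} → Option (Fin k) → ℝ) :
    ∑ c : Col P k, F (cset c m) * ∏ p, h p (c p) =
      ∑ D ∈ P.powerset, F D * ∏ p : {p // p ∈ P},
        (if (p : ℕ) ∈ D then h p (some m) else ∑ o, if o = some m then 0 else h p o) := by
  have e1 : ∀ c : Col P k, F (cset c m) * ∏ p, h p (c p) =
      ∑ D ∈ P.powerset, F D * ∏ p, (if (c p = some m ↔ (p : ℕ) ∈ D) then h p (c p) else 0) := by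
    intro c
    rw [Finset.sum_eq_single (cset c m)]
    · congr 1
      refine Finset.prod_congr rfl fun p _ => ?_
      rw [if_pos]
      rw [mem_cset]
      constructor
      · intro h'
        exact ⟨p.2, h'⟩
      · rintro ⟨_, h'⟩
        exact h'
    · intro D hD hne
      have : ∃ p : {p // p ∈ P}, ¬ (c p = some m ↔ (p : ℕ) ∈ D) := by
        by_contra hcon
        push Not at hcon
        apply hne
        ext x
        rw [mem_cset]
        constructor
        · intro hx
          have hxP := Finset.mem_powerset.1 hD hx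
          exact ⟨hxP, ((hcon ⟨x, hxP⟩)).2 hx⟩
        · rintro ⟨hxP, hx⟩
          exact ((hcon ⟨x, hxP⟩)).1 hx
      obtain ⟨p, hp⟩ := this
      rw [Finset.prod_eq_zero (Finset.mem_univ p), mul_zero]
      rw [if_neg hp]
    · intro hne
      exact absurd (Finset.mem_powerset.2 (cset_subset c m)) hne
  rw [Finset.sum_congr rfl fun c _ => e1 c, Finset.sum_comm]
  refine Finset.sum_congr rfl fun D _ => ?_
  rw [← Finset.mul_sum]
  congr 1
  rw [← Fintype.prod_sum (fun (p : {p // p ∈ P}) (o : Option (Fin k)) =>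
    if (o = some m ↔ (p : ℕ) ∈ D) then h p o else 0)]
  refine Finset.prod_congr rfl fun p _ => ?_
  split_ifs with hp
  · rw [Finset.sum_eq_single (some m)]
    · simp [hp]
    · intro b _ hb
      rw [if_neg]
      rw [iff_true_right hp]
      exact hb
    · simp
  · refine Finset.sum_congr rfl fun o _ => ?_
    by_cases ho : o = some m
    · rw [if_pos ho, if_neg]
      rw [iff_false_right hp]
      exact fun h => h ho
    · rw [if_neg ho, if_pos]
      exact iff_of_false ho hp

/-! ### multiplicative sums over subsets -/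

/-- `∑_{D ⊆ P} F(D) ∏_{p∈D} (u_p + e_p) ≤ ∏_{p∈P} (1 + e_p) ∑_{D ⊆ P} F(D) ∏_{p∈D} u_p` -/
theorem sum_powerset_perturb (u e : ℕ → ℝ) : ∀ (P : Finset ℕ), (∀ p ∈ P, 0 ≤ u p) → (∀ p ∈ P, 0 ≤ e p) →
    ∀ F : Finset ℕ → ℝ, (∀ D ⊆ P, 0 ≤ F D) → (∀ D ⊆ P, ∀ D' ⊆ D, F D ≤ F D') →
    ∑ D ∈ P.powerset, F D * ∏ p ∈ D, (u p + e p) ≤
      (∏ p ∈ P, (1 + e p)) * ∑ D ∈ P.powerset, F D * ∏ p ∈ D, u p := by
  intro P
  induction P using Finset.induction_on with
  | empty =>
    intro _ _ F _ _
    simp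
  | insert a s ha ih =>
    intro hu he F hF hanti
    have hus : ∀ p ∈ s, 0 ≤ u p := fun p hp => hu p (Finset.mem_insert_of_mem hp)
    have hes : ∀ p ∈ s, 0 ≤ e p := fun p hp => he p (Finset.mem_insert_of_mem hp)
    have hua := hu a (Finset.mem_insert_self a s)
    have hea := he a (Finset.mem_insert_self a s)
    have ih1 := ih hus hes F (fun D hD => hF D (hD.trans (Finset.subset_insert a s)))
      (fun D hD D' hD' => hanti D (hD.trans (Finset.subset_insert a s)) D' hD')
    have ih2 := ih hus hes (fun D => F (insert a D))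
      (fun D hD => hF _ (Finset.insert_subset_insert a hD))
      (fun D hD D' hD' => hanti _ (Finset.insert_subset_insert a hD) _ (Finset.insert_subset_insert a hD'))
    rw [Finset.sum_powerset_insert ha, Finset.sum_powerset_insert ha, Finset.prod_insert ha]
    have hnot : ∀ D ∈ s.powerset, a ∉ D := fun D hD h => ha (Finset.mem_powerset.1 hD h)
    have e1 : ∑ D ∈ s.powerset, F (insert a D) * ∏ p ∈ insert a D, (u p + e p) =
        (u a + e a) * ∑ D ∈ s.powerset, F (insert a D) * ∏ p ∈ D, (u p + e p) := by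
      rw [Finset.mul_sum]
      refine Finset.sum_congr rfl fun D hD => ?_
      rw [Finset.prod_insert (hnot D hD)]
      ring
    have e2 : ∑ D ∈ s.powerset, F (insert a D) * ∏ p ∈ insert a D, u p =
        u a * ∑ D ∈ s.powerset, F (insert a D) * ∏ p ∈ D, u p := by
      rw [Finset.mul_sum]
      refine Finset.sum_congr rfl fun D hD => ?_
      rw [Finset.prod_insert (hnot D hD)]
      ring
    rw [e1, e2]
    set X := ∑ D ∈ s.powerset, F D * ∏ p ∈ D, u p with hX
    set Y := ∑ D ∈ s.powerset, F (insert a D) * ∏ p ∈ D, u p with hY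
    set Pi0 := ∏ p ∈ s, (1 + e p) with hPi0
    have hYX : Y ≤ X := by
      refine Finset.sum_le_sum fun D hD => mul_le_mul_of_nonneg_right ?_
        (Finset.prod_nonneg fun p hp => hus p (Finset.mem_powerset.1 hD hp))
      exact hanti _ (Finset.insert_subset_insert a (Finset.mem_powerset.1 hD)) _ (Finset.subset_insert a D)
    have hY0 : 0 ≤ Y := Finset.sum_nonneg fun D hD => mul_nonneg
      (hF _ (Finset.insert_subset_insert a (Finset.mem_powerset.1 hD)))
      (Finset.prod_nonneg fun p hp => hus p (Finset.mem_powerset.1 hD hp))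
    have hPi00 : 0 ≤ Pi0 := Finset.prod_nonneg fun p hp => by linarith [hes p hp]
    have h1 : (u a + e a) * ∑ D ∈ s.powerset, F (insert a D) * ∏ p ∈ D, (u p + e p) ≤
        (u a + e a) * (Pi0 * Y) := mul_le_mul_of_nonneg_left ih2 (by linarith)
    have h2 : Pi0 * X + (u a + e a) * (Pi0 * Y) ≤ (1 + e a) * Pi0 * (X + u a * Y) := by
      have h3 : 0 ≤ Pi0 * (e a * (X - Y)) := mul_nonneg hPi00 (mul_nonneg hea (sub_nonneg.2 hYX))
      have h4 : 0 ≤ Pi0 * (e a * (u a * Y)) := mul_nonneg hPi00 (mul_nonneg hea (mul_nonneg hua hY0))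
      nlinarith
    linarith

/-- `A(U ∪ V) ≤ ∏_{p∈U} (1+u_p) A(V)` -/
theorem sum_powerset_union (u : ℕ → ℝ) (V : Finset ℕ) (hV : ∀ p ∈ V, 0 ≤ u p) :
    ∀ (U : Finset ℕ), Disjoint U V → (∀ p ∈ U, 0 ≤ u p) →
    ∀ F : Finset ℕ → ℝ, (∀ D ⊆ U ∪ V, 0 ≤ F D) → (∀ D ⊆ U ∪ V, ∀ D' ⊆ D, F D ≤ F D') →
    ∑ D ∈ (U ∪ V).powerset, F D * ∏ p ∈ D, u p ≤
      (∏ p ∈ U, (1 + u p)) * ∑ D ∈ V.powerset, F D * ∏ p ∈ D, u p := by
  intro U
  induction U using Finset.induction_on with
  | empty =>
    intro _ _ F _ _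
    simp
  | insert a s ha ih =>
    intro hdisj hu F hF hanti
    have haV : a ∉ V := fun h => (Finset.disjoint_left.1 hdisj) (Finset.mem_insert_self a s) h
    have haS : a ∉ s ∪ V := by
      rw [Finset.mem_union]
      push Not
      exact ⟨ha, haV⟩
    have hds : Disjoint s V := hdisj.mono_left (Finset.subset_insert a s)
    have hus : ∀ p ∈ s, 0 ≤ u p := fun p hp => hu p (Finset.mem_insert_of_mem hp)
    have hua := hu a (Finset.mem_insert_self a s)
    rw [Finset.insert_union] at hF hanti ⊢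
    have ih1 := ih hds hus F (fun D hD => hF D (hD.trans (Finset.subset_insert _ _)))
      (fun D hD D' hD' => hanti D (hD.trans (Finset.subset_insert _ _)) D' hD')
    rw [Finset.sum_powerset_insert haS, Finset.prod_insert ha]
    have hnot : ∀ D ∈ (s ∪ V).powerset, a ∉ D := fun D hD h => haS (Finset.mem_powerset.1 hD h)
    have hposD : ∀ D ∈ (s ∪ V).powerset, 0 ≤ ∏ p ∈ D, u p := fun D hD =>
      Finset.prod_nonneg fun p hp => by
        rcases Finset.mem_union.1 (Finset.mem_powerset.1 hD hp) with h | h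
        · exact hus p h
        · exact hV p h
    have e1 : ∑ D ∈ (s ∪ V).powerset, F (insert a D) * ∏ p ∈ insert a D, u p ≤
        u a * ∑ D ∈ (s ∪ V).powerset, F D * ∏ p ∈ D, u p := by
      rw [Finset.mul_sum]
      refine Finset.sum_le_sum fun D hD => ?_
      rw [Finset.prod_insert (hnot D hD)]
      have : F (insert a D) ≤ F D := hanti _ (Finset.insert_subset_insert a (Finset.mem_powerset.1 hD)) _
        (Finset.subset_insert a D)
      have h2 := mul_le_mul_of_nonneg_right this (mul_nonneg hua (hposD D hD))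
      linarith [h2, (by ring : F D * (u a * ∏ p ∈ D, u p) = u a * (F D * ∏ p ∈ D, u p))]
    have h3 : (1 + u a) * ∑ D ∈ (s ∪ V).powerset, F D * ∏ p ∈ D, u p ≤
        (1 + u a) * ((∏ p ∈ s, (1 + u p)) * ∑ D ∈ V.powerset, F D * ∏ p ∈ D, u p) :=
      mul_le_mul_of_nonneg_left ih1 (by linarith)
    calc _ ≤ (1 + u a) * ∑ D ∈ (s ∪ V).powerset, F D * ∏ p ∈ D, u p := by linarith
      _ ≤ _ := h3
      _ = _ := by ring

/-- sum over subsets containing a given element -/
theorem sum_powerset_mem (u : ℕ → ℝ) (P : Finset ℕ) (hP : ∀ p ∈ P, 0 ≤ u p) (a : ℕ) (ha : a ∈ P)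
    (F : Finset ℕ → ℝ) (hF : ∀ D ⊆ P, 0 ≤ F D) (hanti : ∀ D ⊆ P, ∀ D' ⊆ D, F D ≤ F D') :
    ∑ D ∈ P.powerset, (if a ∈ D then F D * ∏ p ∈ D, u p else 0) ≤
      u a * ∑ D ∈ P.powerset, F D * ∏ p ∈ D, u p := by
  obtain ⟨s, has, rfl⟩ : ∃ s : Finset ℕ, a ∉ s ∧ insert a s = P :=
    ⟨P.erase a, Finset.notMem_erase a P, Finset.insert_erase ha⟩
  have hnot : ∀ D ∈ s.powerset, a ∉ D := fun D hD h => has (Finset.mem_powerset.1 hD h)
  have hua := hP a (Finset.mem_insert_self a s)
  have hus : ∀ p ∈ s, 0 ≤ u p := fun p hp => hP p (Finset.mem_insert_of_mem hp)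
  have hpos : ∀ D ∈ s.powerset, 0 ≤ ∏ p ∈ D, u p := fun D hD =>
    Finset.prod_nonneg fun p hp => hus p (Finset.mem_powerset.1 hD hp)
  rw [Finset.sum_powerset_insert has, Finset.sum_powerset_insert has]
  have e0 : ∑ D ∈ s.powerset, (if a ∈ D then F D * ∏ p ∈ D, u p else 0) = 0 :=
    Finset.sum_eq_zero fun D hD => by rw [if_neg (hnot D hD)]
  have e1 : ∑ D ∈ s.powerset, (if a ∈ insert a D then F (insert a D) * ∏ p ∈ insert a D, u p else 0) =
      u a * ∑ D ∈ s.powerset, F (insert a D) * ∏ p ∈ D, u p := by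
    rw [Finset.mul_sum]
    refine Finset.sum_congr rfl fun D hD => ?_
    rw [if_pos (Finset.mem_insert_self a D), Finset.prod_insert (hnot D hD)]
    ring
  have e2 : ∑ D ∈ s.powerset, F (insert a D) * ∏ p ∈ insert a D, u p =
      u a * ∑ D ∈ s.powerset, F (insert a D) * ∏ p ∈ D, u p := by
    rw [Finset.mul_sum]
    refine Finset.sum_congr rfl fun D hD => ?_
    rw [Finset.prod_insert (hnot D hD)]
    ring
  rw [e0, e1, e2]
  set X := ∑ D ∈ s.powerset, F D * ∏ p ∈ D, u p with hX
  set Y := ∑ D ∈ s.powerset, F (insert a D) * ∏ p ∈ D, u p with hY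
  have hYX : Y ≤ X := by
    refine Finset.sum_le_sum fun D hD => mul_le_mul_of_nonneg_right ?_ (hpos D hD)
    exact hanti _ (Finset.insert_subset_insert a (Finset.mem_powerset.1 hD)) _ (Finset.subset_insert a D)
  have hY0 : 0 ≤ Y := Finset.sum_nonneg fun D hD => mul_nonneg
    (hF _ (Finset.insert_subset_insert a (Finset.mem_powerset.1 hD))) (hpos D hD)
  nlinarith [mul_nonneg hua (mul_nonneg hua hY0), mul_le_mul_of_nonneg_left hYX hua]

end Pool.Agent.H90.MT
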