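import Mathlib

/-! Finite Maynard-Tao sieve, abstract part: definitions. -/

set_option autoImplicit false
open Finset

namespace Pool.Agent.H90.MT

/-- colourings (`none` = prime not used; `some j` = prime divides the j-th form) -/
abbrev Col (P : Finset ℕ) (k : ℕ) : Type := {p // p ∈ P} → Option (Fin k)

variable {P : Finset ℕ} {k : ℕ}

/-- `N_j(c)` -/
def part (c : Col P k) (j : Fin k) : ℕ := ∏ p : {p // p ∈ P}, if c p = some j then (p : ℕ) else 1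
/-- `N(c)` -/
def nn (c : Col P k) : ℕ := ∏ p : {p // p ∈ P}, if c p = none then 1 else (p : ℕ)

noncomputable def zz (g : ℕ → ℝ) (R : ℝ) (c : Col P k) : ℝ :=
  (if (nn c : ℝ) ≤ R then 1 else 0) * ((∏ p, if c p = none then (1 : ℝ) else -1) * ∏ j, g (part c j))

noncomputable def psi (q : Fin k → ℝ) (o a : Option (Fin k)) : ℝ :=
  match o with
  | none => 1
  | some j => (if a = some j then 1 else 0) - q j

noncomputable def Lam (g : ℕ → ℝ) (R : ℝ) (a : Col P k) : ℝ :=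
  ∑ c : Col P k, zz g R c * ∏ p : {p // p ∈ P}, psi (fun _ => 1 / ((p : ℕ) : ℝ)) (c p) (a p)

/-- outcome weights of the model -/
noncomputable def ww (q : Fin k → ℝ) (a : Option (Fin k)) : ℝ :=
  match a with
  | none => 1 - ∑ j, q j
  | some j => q j

noncomputable def EE (q : ℕ → Fin k → ℝ) (F : Col P k → ℝ) : ℝ :=
  ∑ a : Col P k, (∏ p : {p // p ∈ P}, ww (q p) (a p)) * F a

/-- level sets -/
noncomputable def lev (P : Finset ℕ) (Y : ℝ) : Finset (Finset ℕ) :=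
  P.powerset.filter (fun D => ((∏ p ∈ D, p : ℕ) : ℝ) ≤ Y)

noncomputable def A1 (P : Finset ℕ) (g : ℕ → ℝ) : ℝ := ∑ D ∈ P.powerset, g (∏ p ∈ D, p) / ((∏ p ∈ D, p : ℕ) : ℝ)
noncomputable def A2 (P : Finset ℕ) (g : ℕ → ℝ) : ℝ := ∑ D ∈ P.powerset, g (∏ p ∈ D, p) ^ 2 / ((∏ p ∈ D, p : ℕ) : ℝ)
noncomputable def B1 (P : Finset ℕ) (g : ℕ → ℝ) : ℝ :=
  ∑ D ∈ P.powerset, g (∏ p ∈ D, p) ^ 2 * Real.log ((∏ p ∈ D, p : ℕ) : ℝ) / ((∏ p ∈ D, p : ℕ) : ℝ)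

/-- hypotheses on `g` -/
structure GOK (P : Finset ℕ) (g : ℕ → ℝ) : Prop where
  nonneg : ∀ D ⊆ P, 0 ≤ g (∏ p ∈ D, p)
  one : g 1 = 1
  anti : ∀ D ⊆ P, ∀ D' ⊆ D, g (∏ p ∈ D, p) ≤ g (∏ p ∈ D', p)

end Pool.Agent.H90.MT
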