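import Pool.Agent.H90.MT.T23

/-! Error term T1. -/

set_option autoImplicit false
open Finset

namespace Pool.Agent.H90.MT

variable {P : Finset ℕ} {k : ℕ}

/-- support of a pair -/
def supp2 (r t : Col P k) : Finset ℕ :=
  (Finset.univ.filter fun p : {p // p ∈ P} => r p ≠ none ∨ t p ≠ none).map (Function.Embedding.subtype _)

theorem mem_supp2 (r t : Col P k) (p : {p // p ∈ P}) :
    (p : ℕ) ∈ supp2 r t ↔ (r p ≠ none ∨ t p ≠ none) := by
  unfold supp2
  rw [Finset.mem_map]
  constructor
  · rintro ⟨x, hx, hxp⟩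
    have : x = p := Subtype.ext hxp
    subst this
    exact (Finset.mem_filter.1 hx).2
  · intro h
    exact ⟨p, Finset.mem_filter.2 ⟨Finset.mem_univ _, h⟩, rfl⟩

theorem supp2_subset (r t : Col P k) : supp2 r t ⊆ P := by
  intro x hx
  unfold supp2 at hx
  obtain ⟨y, _, hy⟩ := Finset.mem_map.1 hx
  rw [← hy]
  exact y.2

theorem prod_supp2 {N : Type} [CommMonoid N] (r t : Col P k) (f : ℕ → N) :
    ∏ p ∈ supp2 r t, f p = ∏ p : {p // p ∈ P}, if (r p ≠ none ∨ t p ≠ none) then f p else 1 := by
  unfold supp2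
  rw [Finset.prod_map, Finset.prod_filter]
  rfl

theorem supp2_le (hP : ∀ p ∈ P, p.Prime) (r t : Col P k) :
    ∏ p ∈ supp2 r t, p ≤ nn r * nn t := by
  rw [prod_supp2]
  unfold nn
  rw [← Finset.prod_mul_distrib]
  refine Finset.prod_le_prod' fun p _ => ?_
  have h1 : 1 ≤ (p : ℕ) := (hP p p.2).one_le
  by_cases hr : r p = none <;> by_cases ht : t p = none
  · simp [hr, ht]
  · simp [hr, ht]
  · simp [hr, ht]
  · simp only [hr, ht, ne_eq, not_false_eq_true, or_self, if_true, if_false]
    nlinarith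

/-- the product of two indicator monomials -/
noncomputable def Psi (r t : Col P k) (a : Col P k) : ℝ :=
  ∏ p : {p // p ∈ P}, (psi (fun _ => 0) (r p) (a p) * psi (fun _ => 0) (t p) (a p))

theorem Psi_cases (hk : 0 < k) (r t : Col P k) :
    (∀ a, Psi r t a = 0) ∨ ∃ b : ℕ → Fin k, ∀ a : Col P k, Psi r t a =
      ∏ p : {p // p ∈ P}, (if (p : ℕ) ∈ supp2 r t → a p = some (b p) then (1 : ℝ) else 0) := by
  classical
  by_cases hc : ∃ p : {p // p ∈ P}, r p ≠ none ∧ t p ≠ none ∧ r p ≠ t p
  · left
    intro a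
    obtain ⟨p, h1, h2, h3⟩ := hc
    refine Finset.prod_eq_zero (Finset.mem_univ p) ?_
    obtain ⟨i, hi⟩ := Option.ne_none_iff_exists'.1 h1
    obtain ⟨j, hj⟩ := Option.ne_none_iff_exists'.1 h2
    rw [hi, hj] at h3 ⊢
    have hij : i ≠ j := fun h => h3 (by rw [h])
    simp only [psi, sub_zero]
    by_cases h4 : a p = some i
    · have : ¬ (a p = some j) := by
        rw [h4]
        simpa using hij
      rw [if_neg this, mul_zero]
    · rw [if_neg h4, zero_mul]
  · right
    push Not at hc
    refine ⟨fun x => if h : x ∈ P then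
      (match r ⟨x, h⟩ with
        | some j => j
        | none => match t ⟨x, h⟩ with
          | some j => j
          | none => ⟨0, hk⟩) else ⟨0, hk⟩, fun a => ?_⟩
    unfold Psi
    refine Finset.prod_congr rfl fun p _ => ?_
    have hmem := mem_supp2 r t p
    beta_reduce
    rw [dif_pos p.2]
    have hc' := hc p
    cases hr : r p with
    | none =>
      cases ht : t p with
      | none =>
        rw [if_pos]
        · simp [psi]
        · intro h
          rw [hmem, hr, ht] at h
          simp at h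
      | some j =>
        have hm : (p : ℕ) ∈ supp2 r t := by rw [hmem, ht]; simp
        simp only [hm, forall_const, psi, sub_zero, one_mul]
    | some i =>
      have hm : (p : ℕ) ∈ supp2 r t := by rw [hmem, hr]; simp
      simp only [hm, forall_const]
      cases ht : t p with
      | none =>
        simp only [psi, sub_zero, mul_one]
      | some j =>
        have : i = j := by
          rw [hr, ht] at hc'
          simpa using hc'
        subst this
        simp only [psi, sub_zero]
        split_ifs <;> simp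

theorem EE_ind (q : ℕ → Fin k → ℝ) (D : Finset ℕ) (hD : D ⊆ P) (b : ℕ → Fin k) :
    EE q (fun a : Col P k => ∏ p : {p // p ∈ P}, (if (p : ℕ) ∈ D → a p = some (b p) then (1 : ℝ) else 0)) =
      ∏ p ∈ D, q p (b p) := by
  classical
  unfold EE
  simp_rw [← Finset.prod_mul_distrib]
  rw [← Fintype.prod_sum (fun (p : {p // p ∈ P}) (o : Option (Fin k)) =>
    ww (q p) o * (if (p : ℕ) ∈ D → o = some (b p) then (1 : ℝ) else 0))]
  have : ∀ p : {p // p ∈ P}, ∑ o, ww (q p) o * (if (p : ℕ) ∈ D → o = some (b p) then (1 : ℝ) else 0) =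
      if (p : ℕ) ∈ D then q p (b p) else 1 := by
    intro p
    split_ifs with hp
    · rw [Finset.sum_eq_single (some (b p))]
      · simp [ww]
      · intro o _ ho
        simp [hp, ho]
      · simp
    · simp only [hp, false_imp_iff, if_true, mul_one]
      exact sum_ww _
  rw [Finset.prod_congr rfl fun p _ => this p]
  rw [Finset.prod_coe_sort P (fun p => if p ∈ D then q p (b p) else 1)]
  rw [Finset.prod_ite_mem, Finset.inter_eq_right.2 hD]

theorem card_supp_le (D : Finset ℕ) (hD : D ⊆ P) :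
    #(Finset.univ.filter fun x : Col P k × Col P k => supp2 x.1 x.2 = D) ≤ (k + 1) ^ (2 * #D) := by
  classical
  set T : Finset (Col P k) := Fintype.piFinset (fun p : {p // p ∈ P} =>
    if (p : ℕ) ∈ D then (Finset.univ : Finset (Option (Fin k))) else {none}) with hT
  have hcard : #T = (k + 1) ^ #D := by
    rw [hT, Fintype.card_piFinset]
    have : ∀ p : {p // p ∈ P}, #(if (p : ℕ) ∈ D then (Finset.univ : Finset (Option (Fin k))) else {none}) =
        if (p : ℕ) ∈ D then (k + 1) else 1 := by
      intro p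
      split_ifs
      · simp
      · simp
    rw [Finset.prod_congr rfl fun p _ => this p]
    rw [Finset.prod_coe_sort P (fun p => if p ∈ D then (k + 1) else 1)]
    rw [Finset.prod_ite_mem, Finset.inter_eq_right.2 hD, Finset.prod_const]
  have hsub : (Finset.univ.filter fun x : Col P k × Col P k => supp2 x.1 x.2 = D) ⊆ T ×ˢ T := by
    rintro ⟨r, t⟩ hx
    have hx' : supp2 r t = D := (Finset.mem_filter.1 hx).2
    rw [Finset.mem_product]
    constructor
    · rw [hT, Fintype.mem_piFinset]
      intro p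
      split_ifs with hp
      · exact Finset.mem_univ _
      · rw [Finset.mem_singleton]
        rw [← hx', mem_supp2] at hp
        push Not at hp
        exact hp.1
    · rw [hT, Fintype.mem_piFinset]
      intro p
      split_ifs with hp
      · exact Finset.mem_univ _
      · rw [Finset.mem_singleton]
        rw [← hx', mem_supp2] at hp
        push Not at hp
        exact hp.2
  calc _ ≤ #(T ×ˢ T) := Finset.card_le_card hsub
    _ = (k + 1) ^ (2 * #D) := by
      rw [Finset.card_product, hcard]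
      ring

/-- T1: error term -/
theorem T1 (hk : 0 < k) (hP : ∀ p ∈ P, p.Prime) (g : ℕ → ℝ) (hg : GOK P g) (R : ℝ) (hR : 1 ≤ R)
    {ι : Type} (S : Finset ι) (ω : ι → ℝ) (a : ι → Col P k) (X : ℝ) (q : ℕ → Fin k → ℝ)
    (M : Finset ℕ → ℝ)
    (hM : ∀ D ∈ lev P (R ^ 2), ∀ b : ℕ → Fin k,
      |(∑ n ∈ S, ω n * ∏ p : {p // p ∈ P}, (if (p : ℕ) ∈ D → a n p = some (b p) then (1 : ℝ) else 0)) -
        X * ∏ p ∈ D, q p (b p)| ≤ M D) :
    |∑ n ∈ S, ω n * Lam g R (a n) ^ 2 - X * EE q (fun a : Col P k => Lam g R a ^ 2)| ≤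
      (∏ p ∈ P, (1 + (k : ℝ) / p)) ^ 2 * ∑ D ∈ lev P (R ^ 2), ((k : ℝ) + 1) ^ (2 * #D) * M D := by
  classical
  set lam : Col P k → ℝ := zt g R (fun _ _ => 0) with hlam
  set E0 : ℝ := ∏ p ∈ P, (1 + (k : ℝ) / p) with hE0
  have hE00 : 0 ≤ E0 := Finset.prod_nonneg fun p _ => by positivity
  have hlamb : ∀ r : Col P k, |lam r| ≤ (if (nn r : ℝ) ≤ R then 1 else 0) * E0 := by
    intro r
    have h := zt_bound hP hg R (fun _ (_ : Fin k) => (0 : ℝ)) r
    have h2 : ∏ p ∈ P, (1 + ∑ _j : Fin k, |(0 : ℝ) - 1 / (p : ℝ)|) = E0 := by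
      refine Finset.prod_congr rfl fun p _ => ?_
      rw [Finset.sum_const, Finset.card_univ, Fintype.card_fin, nsmul_eq_mul, zero_sub, abs_neg,
        abs_of_nonneg (by positivity), mul_one_div]
    rw [h2] at h
    refine h.trans ?_
    refine mul_le_mul_of_nonneg_right ?_ hE00
    have hG1 : GG g r ≤ 1 := Finset.prod_le_one (fun j _ => hg.nonneg _ (cset_subset r j))
      (fun j _ => hg.le_one (cset_subset r j))
    split_ifs
    · rw [one_mul]
      exact hG1
    · rw [zero_mul]
  have hsq : ∀ x : Col P k, Lam g R x ^ 2 = ∑ y : Col P k × Col P k, lam y.1 * lam y.2 * Psi y.1 y.2 x := by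
    intro x
    rw [Lam_expand g R (fun _ _ => 0) x, sq, Fintype.sum_mul_sum, Fintype.sum_prod_type]
    refine Finset.sum_congr rfl fun r _ => Finset.sum_congr rfl fun t _ => ?_
    unfold Psi
    rw [Finset.prod_mul_distrib]
    ring
  have hEE : EE q (fun a : Col P k => Lam g R a ^ 2) =
      ∑ y : Col P k × Col P k, lam y.1 * lam y.2 * EE q (Psi y.1 y.2) := by
    unfold EE
    simp_rw [hsq, Finset.mul_sum]
    rw [Finset.sum_comm]
    refine Finset.sum_congr rfl fun y _ => Finset.sum_congr rfl fun x _ => ?_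
    ring
  have hS : ∑ n ∈ S, ω n * Lam g R (a n) ^ 2 =
      ∑ y : Col P k × Col P k, lam y.1 * lam y.2 * ∑ n ∈ S, ω n * Psi y.1 y.2 (a n) := by
    simp_rw [hsq, Finset.mul_sum]
    rw [Finset.sum_comm]
    refine Finset.sum_congr rfl fun y _ => Finset.sum_congr rfl fun x _ => ?_
    ring
  rw [hEE, hS, Finset.mul_sum, ← Finset.sum_sub_distrib]
  refine (Finset.abs_sum_le_sum_abs _ _).trans ?_
  have hM0 : ∀ D ∈ lev P (R ^ 2), 0 ≤ M D := fun D hD =>
    (abs_nonneg _).trans (hM D hD (fun _ => ⟨0, hk⟩))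
  have hterm : ∀ y : Col P k × Col P k,
      |lam y.1 * lam y.2 * (∑ n ∈ S, ω n * Psi y.1 y.2 (a n)) - X * (lam y.1 * lam y.2 * EE q (Psi y.1 y.2))| ≤
      if supp2 y.1 y.2 ∈ lev P (R ^ 2) then E0 ^ 2 * M (supp2 y.1 y.2) else 0 := by
    rintro ⟨r, t⟩
    simp only
    have e1 : lam r * lam t * (∑ n ∈ S, ω n * Psi r t (a n)) - X * (lam r * lam t * EE q (Psi r t)) =
        lam r * lam t * ((∑ n ∈ S, ω n * Psi r t (a n)) - X * EE q (Psi r t)) := by ring
    rw [e1, abs_mul, abs_mul]
    by_cases hr : (nn r : ℝ) ≤ R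
    · by_cases ht : (nn t : ℝ) ≤ R
      · have hmem : supp2 r t ∈ lev P (R ^ 2) := by
          unfold lev
          rw [Finset.mem_filter, Finset.mem_powerset]
          refine ⟨supp2_subset r t, ?_⟩
          have h1 : ((∏ p ∈ supp2 r t, p : ℕ) : ℝ) ≤ (nn r : ℝ) * nn t := by
            exact_mod_cast supp2_le hP r t
          calc ((∏ p ∈ supp2 r t, p : ℕ) : ℝ) ≤ (nn r : ℝ) * nn t := h1
            _ ≤ R * R := mul_le_mul hr ht (by positivity) (by linarith)
            _ = R ^ 2 := by ring
        rw [if_pos hmem]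
        have h1 := hlamb r
        have h2 := hlamb t
        rw [if_pos hr, one_mul] at h1
        rw [if_pos ht, one_mul] at h2
        have h3 : |(∑ n ∈ S, ω n * Psi r t (a n)) - X * EE q (Psi r t)| ≤ M (supp2 r t) := by
          rcases Psi_cases hk r t with h | ⟨b, hb⟩
          · have h4 : EE q (Psi r t) = 0 := by
              unfold EE
              exact Finset.sum_eq_zero fun x _ => by rw [h x, mul_zero]
            have h5 : ∑ n ∈ S, ω n * Psi r t (a n) = 0 :=
              Finset.sum_eq_zero fun n _ => by rw [h (a n), mul_zero]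
            rw [h4, h5, mul_zero, sub_zero, abs_zero]
            exact hM0 _ hmem
          · have h4 : EE q (Psi r t) = ∏ p ∈ supp2 r t, q p (b p) := by
              rw [← EE_ind q (supp2 r t) (supp2_subset r t) b]
              congr 1
              funext x
              exact hb x
            rw [h4]
            have h5 : ∑ n ∈ S, ω n * Psi r t (a n) = ∑ n ∈ S, ω n * ∏ p : {p // p ∈ P},
                (if (p : ℕ) ∈ supp2 r t → a n p = some (b p) then (1 : ℝ) else 0) :=
              Finset.sum_congr rfl fun n _ => by rw [hb (a n)]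
            rw [h5]
            exact hM _ hmem b
        calc |lam r| * |lam t| * |(∑ n ∈ S, ω n * Psi r t (a n)) - X * EE q (Psi r t)|
            ≤ (E0 * E0) * M (supp2 r t) :=
              mul_le_mul (mul_le_mul h1 h2 (abs_nonneg _) hE00) h3 (abs_nonneg _) (mul_nonneg hE00 hE00)
          _ = _ := by ring
      · have h2 := hlamb t
        rw [if_neg ht, zero_mul] at h2
        have h3 : |lam t| = 0 := le_antisymm h2 (abs_nonneg _)
        rw [h3, mul_zero, zero_mul]
        split_ifs with h4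
        · exact mul_nonneg (sq_nonneg _) (hM0 _ h4)
        · exact le_refl _
    · have h2 := hlamb r
      rw [if_neg hr, zero_mul] at h2
      have h3 : |lam r| = 0 := le_antisymm h2 (abs_nonneg _)
      rw [h3, zero_mul, zero_mul]
      split_ifs with h4
      · exact mul_nonneg (sq_nonneg _) (hM0 _ h4)
      · exact le_refl _
  refine (Finset.sum_le_sum fun y _ => hterm y).trans ?_
  rw [← Finset.sum_filter]
  have hmap : ∀ y ∈ (Finset.univ.filter fun y : Col P k × Col P k => supp2 y.1 y.2 ∈ lev P (R ^ 2)),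
      supp2 y.1 y.2 ∈ lev P (R ^ 2) := fun y hy => (Finset.mem_filter.1 hy).2
  rw [← Finset.sum_fiberwise_of_maps_to hmap, Finset.mul_sum]
  refine Finset.sum_le_sum fun D hD => ?_
  rw [Finset.sum_congr rfl (g := fun _ => E0 ^ 2 * M D) (fun y hy => by
    rw [(Finset.mem_filter.1 hy).2])]
  rw [Finset.sum_const, nsmul_eq_mul]
  have hDP : D ⊆ P := Finset.mem_powerset.1 (Finset.mem_filter.1 hD).1
  have hc : #{y ∈ (Finset.univ.filter fun y : Col P k × Col P k => supp2 y.1 y.2 ∈ lev P (R ^ 2)) |
      supp2 y.1 y.2 = D} ≤ (k + 1) ^ (2 * #D) := by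
    refine (Finset.card_le_card ?_).trans (card_supp_le D hDP)
    intro y hy
    rw [Finset.mem_filter] at hy ⊢
    exact ⟨Finset.mem_univ _, hy.2⟩
  have hc' : (#{y ∈ (Finset.univ.filter fun y : Col P k × Col P k => supp2 y.1 y.2 ∈ lev P (R ^ 2)) |
      supp2 y.1 y.2 = D} : ℝ) ≤ ((k : ℝ) + 1) ^ (2 * #D) := by
    exact_mod_cast hc
  calc _ ≤ ((k : ℝ) + 1) ^ (2 * #D) * (E0 ^ 2 * M D) :=
        mul_le_mul_of_nonneg_right hc' (mul_nonneg (sq_nonneg _) (hM0 D hD))
    _ = _ := by ring

end Pool.Agent.H90.MT
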