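import Pool.Agent.H90.MT.Combi

/-! Upper bounds T2, T3. -/

set_option autoImplicit false
open Finset

namespace Pool.Agent.H90.MT

variable {P : Finset ℕ} {k : ℕ}

theorem dw_prod (t : ℕ → ℝ) (q : ℕ → Fin k → ℝ) (c : Col P k) :
    ∏ p : {p // p ∈ P}, dw (t p) (q p) (c p) = ∏ j, ∏ p ∈ cset c j, (t p * q p j) := by
  rw [← prod_wt (fun p j => t p * q p j) c]
  refine Finset.prod_congr rfl fun p _ => ?_
  cases c p <;> rfl

theorem prod_sign_sq (c : Col P k) : (∏ p, if c p = none then (1 : ℝ) else -1) ^ 2 = 1 := by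
  rw [← Finset.prod_pow]
  refine Finset.prod_eq_one fun p _ => ?_
  split_ifs <;> norm_num

theorem abs_prod_sign (c : Col P k) : |∏ p, if c p = none then (1 : ℝ) else -1| = 1 := by
  rw [Finset.abs_prod]
  refine Finset.prod_eq_one fun p _ => ?_
  split_ifs <;> norm_num

/-- `G(c)` -/
noncomputable def GG (g : ℕ → ℝ) (c : Col P k) : ℝ := ∏ j, g (∏ p ∈ cset c j, p)

theorem GG_eq (g : ℕ → ℝ) (c : Col P k) : ∏ j, g (part c j) = GG g c :=
  Finset.prod_congr rfl fun j _ => by rw [part_eq]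

theorem GG_nonneg {g : ℕ → ℝ} (hg : GOK P g) (c : Col P k) : 0 ≤ GG g c :=
  Finset.prod_nonneg fun j _ => hg.nonneg _ (cset_subset c j)

theorem GOK.le_one {g : ℕ → ℝ} (hg : GOK P g) {D : Finset ℕ} (hD : D ⊆ P) : g (∏ p ∈ D, p) ≤ 1 := by
  have := hg.anti D hD ∅ (Finset.empty_subset _)
  rw [Finset.prod_empty, hg.one] at this
  exact this

theorem abs_zz {g : ℕ → ℝ} (hg : GOK P g) (R : ℝ) (c : Col P k) :
    |zz g R c| = (if (nn c : ℝ) ≤ R then 1 else 0) * GG g c := by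
  unfold zz
  rw [abs_mul, abs_mul, abs_prod_sign, one_mul, GG_eq, abs_of_nonneg (GG_nonneg hg c)]
  congr 1
  split_ifs <;> simp

theorem zz_sq_le {g : ℕ → ℝ} (hg : GOK P g) (R : ℝ) (c : Col P k) :
    zz g R c ^ 2 ≤ GG g c ^ 2 := by
  rw [← sq_abs, abs_zz hg]
  split_ifs
  · rw [one_mul]
  · rw [zero_mul]
    simpa using sq_nonneg _

theorem A2_eq (P : Finset ℕ) (g : ℕ → ℝ) :
    A2 P g = ∑ D ∈ P.powerset, g (∏ p ∈ D, p) ^ 2 * ∏ p ∈ D, (1 / (p : ℝ)) := by
  unfold A2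
  refine Finset.sum_congr rfl fun D _ => ?_
  rw [Finset.prod_div_distrib, Finset.prod_const_one, Nat.cast_prod]
  ring

theorem A1_eq (P : Finset ℕ) (g : ℕ → ℝ) :
    A1 P g = ∑ D ∈ P.powerset, g (∏ p ∈ D, p) * ∏ p ∈ D, (1 / (p : ℝ)) := by
  unfold A1
  refine Finset.sum_congr rfl fun D _ => ?_
  rw [Finset.prod_div_distrib, Finset.prod_const_one, Nat.cast_prod]
  ring

theorem GG_sq (g : ℕ → ℝ) (c : Col P k) (u : ℕ → Fin k → ℝ) :
    (∏ j, ∏ p ∈ cset c j, u p j) * GG g c ^ 2 =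
      ∏ j, (g (∏ p ∈ cset c j, p) ^ 2 * ∏ p ∈ cset c j, u p j) := by
  unfold GG
  rw [← Finset.prod_pow, ← Finset.prod_mul_distrib]
  exact Finset.prod_congr rfl fun j _ => mul_comm _ _

/-- T2: upper bound, density 1/p -/
theorem T2 (hP : ∀ p ∈ P, p.Prime) (hPk : ∀ p ∈ P, k < p) (g : ℕ → ℝ) (hg : GOK P g) (R : ℝ) :
    EE (fun p (_ : Fin k) => 1 / (p : ℝ)) (fun a : Col P k => Lam g R a ^ 2) ≤ (A2 P g) ^ k := by
  have hpos : ∀ p ∈ P, (0 : ℝ) < p := fun p hp => by exact_mod_cast (hP p hp).pos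
  have h := EE_upper (P := P) (k := k) (fun p (_ : Fin k) => 1 / (p : ℝ))
    (fun p hp _ => (one_div_pos.2 (hpos p hp)).le)
    (fun p hp => by
      rw [Finset.sum_const, Finset.card_univ, Fintype.card_fin, nsmul_eq_mul, mul_one_div,
        div_le_one (hpos p hp)]
      exact_mod_cast (hPk p hp).le) (zz g R)
  refine h.trans ?_
  calc ∑ c : Col P k, (∏ p : {p // p ∈ P}, dw 1 (fun _ : Fin k => 1 / ((p : ℕ) : ℝ)) (c p)) * zz g R c ^ 2
      ≤ ∑ c : Col P k, ∏ j, (g (∏ p ∈ cset c j, p) ^ 2 * ∏ p ∈ cset c j, (1 / (p : ℝ))) := by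
        refine Finset.sum_le_sum fun c _ => ?_
        rw [dw_prod (fun _ => 1) (fun p _ => 1 / (p : ℝ)) c]
        simp only [one_mul]
        rw [← GG_sq g c (fun p _ => 1 / (p : ℝ))]
        refine mul_le_mul_of_nonneg_left (zz_sq_le hg R c) ?_
        exact Finset.prod_nonneg fun j _ => Finset.prod_nonneg fun p _ => by positivity
    _ ≤ ∏ _j : Fin k, ∑ D ∈ P.powerset, (g (∏ p ∈ D, p) ^ 2 * ∏ p ∈ D, (1 / (p : ℝ))) := by
        refine sum_col_le Finset.univ (fun _ => P.powerset)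
          (fun _ D => g (∏ p ∈ D, p) ^ 2 * ∏ p ∈ D, (1 / (p : ℝ))) ?_ ?_
        · exact fun c _ j => Finset.mem_powerset.2 (cset_subset c j)
        · intro j D _
          exact mul_nonneg (sq_nonneg _) (Finset.prod_nonneg fun p _ => by positivity)
    _ = (A2 P g) ^ k := by
        rw [Finset.prod_const, Finset.card_univ, Fintype.card_fin, A2_eq]

theorem sum_abs_mx (m : Fin k → ℝ) (s : Option (Fin k)) :
    ∑ o, |mx m o s| = if s = none then 1 + ∑ j, |m j| else 1 := by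
  rw [Fintype.sum_option]
  cases s with
  | none =>
    simp [mx]
  | some i =>
    have : ∑ x : Fin k, |mx m (some x) (some i)| = 1 := by
      rw [Finset.sum_eq_single i]
      · simp [mx]
      · intro b _ hb
        simp [mx, hb]
      · simp
    rw [this]
    simp [mx]

/-- if the product of kernels is nonzero then `c` extends `r` -/
theorem mx_ne_zero {m : Fin k → ℝ} {o s : Option (Fin k)} (h : mx m o s ≠ 0) (hs : s ≠ none) : o = s := by
  by_contra hne
  apply h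
  unfold mx
  rw [if_neg hne]
  cases o with
  | none => rfl
  | some j => simp [hs]

theorem cset_mono_of_ext {c r : Col P k} (h : ∀ p, r p ≠ none → c p = r p) (j : Fin k) :
    cset r j ⊆ cset c j := by
  intro x hx
  obtain ⟨h1, h2⟩ := (mem_cset r j x).1 hx
  refine (mem_cset c j x).2 ⟨h1, ?_⟩
  rw [h _ (by rw [h2]; simp), h2]

theorem GG_anti {g : ℕ → ℝ} (hg : GOK P g) {c r : Col P k} (h : ∀ p, r p ≠ none → c p = r p) :
    GG g c ≤ GG g r :=
  Finset.prod_le_prod (fun j _ => hg.nonneg _ (cset_subset c j))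
    (fun j _ => hg.anti _ (cset_subset c j) _ (cset_mono_of_ext h j))

theorem nn_mono (hP : ∀ p ∈ P, p.Prime) {c r : Col P k} (h : ∀ p, r p ≠ none → c p = r p) :
    nn r ≤ nn c := by
  unfold nn
  refine Finset.prod_le_prod' fun p _ => ?_
  by_cases hr : r p = none
  · rw [if_pos hr]
    split_ifs
    · exact le_refl _
    · exact (hP p p.2).one_le
  · rw [if_neg hr, h p hr, if_neg hr]

theorem zt_bound (hP : ∀ p ∈ P, p.Prime) {g : ℕ → ℝ} (hg : GOK P g) (R : ℝ) (q : ℕ → Fin k → ℝ)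
    (r : Col P k) :
    |zt g R q r| ≤ (if (nn r : ℝ) ≤ R then 1 else 0) * GG g r *
      ∏ p ∈ P, (1 + ∑ j, |q p j - 1 / (p : ℝ)|) := by
  unfold zt
  refine (Finset.abs_sum_le_sum_abs _ _).trans ?_
  have h1 : ∀ c : Col P k, |zz g R c * ∏ p : {p // p ∈ P}, mx (fun j => q p j - 1 / ((p : ℕ) : ℝ)) (c p) (r p)|
      ≤ (if (nn r : ℝ) ≤ R then 1 else 0) * GG g r *
        ∏ p : {p // p ∈ P}, |mx (fun j => q p j - 1 / ((p : ℕ) : ℝ)) (c p) (r p)| := by
    intro c
    rw [abs_mul, Finset.abs_prod]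
    by_cases hz : ∃ p : {p // p ∈ P}, mx (fun j => q p j - 1 / ((p : ℕ) : ℝ)) (c p) (r p) = 0
    · obtain ⟨p, hp⟩ := hz
      have : ∏ p : {p // p ∈ P}, |mx (fun j => q p j - 1 / ((p : ℕ) : ℝ)) (c p) (r p)| = 0 :=
        Finset.prod_eq_zero (Finset.mem_univ p) (by rw [hp, abs_zero])
      rw [this, mul_zero, mul_zero]
    · push Not at hz
      have hext : ∀ p, r p ≠ none → c p = r p := fun p hp => mx_ne_zero (hz p) hp
      refine mul_le_mul_of_nonneg_right ?_ (Finset.prod_nonneg fun p _ => abs_nonneg _)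
      rw [abs_zz hg]
      refine mul_le_mul ?_ (GG_anti hg hext) (GG_nonneg hg c) (by split_ifs <;> norm_num)
      have hn : (nn r : ℝ) ≤ nn c := by exact_mod_cast nn_mono hP hext
      split_ifs with h2 h3
      · exact le_refl _
      · exact absurd (hn.trans h2) h3
      · norm_num
      · exact le_refl _
  refine (Finset.sum_le_sum fun c _ => h1 c).trans ?_
  rw [← Finset.mul_sum]
  refine mul_le_mul_of_nonneg_left ?_ (mul_nonneg (by split_ifs <;> norm_num) (GG_nonneg hg r))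
  rw [← Fintype.prod_sum (fun (p : {p // p ∈ P}) (o : Option (Fin k)) =>
    |mx (fun j => q p j - 1 / ((p : ℕ) : ℝ)) o (r p)|)]
  rw [← Finset.prod_coe_sort P (fun p => (1 + ∑ j, |q p j - 1 / (p : ℝ)|))]
  refine Finset.prod_le_prod (fun p _ => Finset.sum_nonneg fun o _ => abs_nonneg _) fun p _ => ?_
  rw [sum_abs_mx]
  split_ifs
  · exact le_refl _
  · have : 0 ≤ ∑ j, |q p j - 1 / ((p : ℕ) : ℝ)| := Finset.sum_nonneg fun j _ => abs_nonneg _
    linarith

theorem prod_one_add_le_exp (P : Finset ℕ) (f : ℕ → ℝ) (hf : ∀ p ∈ P, 0 ≤ f p) :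
    ∏ p ∈ P, (1 + f p) ≤ Real.exp (∑ p ∈ P, f p) := by
  rw [Real.exp_sum]
  exact Finset.prod_le_prod (fun p hp => by linarith [hf p hp])
    (fun p _ => by linarith [Real.add_one_le_exp (f p)])

/-- T3: upper bound, general densities -/
theorem T3 (hP : ∀ p ∈ P, p.Prime) (hPk : ∀ p ∈ P, 2 * k + 2 < p) (g : ℕ → ℝ) (hg : GOK P g) (R : ℝ)
    (q : ℕ → Fin k → ℝ) (hq0 : ∀ p ∈ P, ∀ j, 0 ≤ q p j) (hq1 : ∀ p ∈ P, ∀ j, q p j ≤ 1 / ((p : ℝ) - 1))
    (hq2 : ∑ p ∈ P, ∑ j : Fin k, |q p j - 1 / (p : ℝ)| ≤ 1 / 4)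
    (hσ : (k : ℝ) * ∑ p ∈ P, 1 / ((p : ℝ) - 1) ^ 2 ≤ 1 / 4) :
    EE q (fun a : Col P k => Lam g R a ^ 2) ≤ 8 * (A2 P g) ^ k := by
  have hpos : ∀ p ∈ P, (2 : ℝ) < p := fun p hp => by
    have := hPk p hp
    have h2 : 2 < p := by omega
    exact_mod_cast h2
  have hp1 : ∀ p ∈ P, (k : ℝ) ≤ (p : ℝ) - 1 := fun p hp => by
    have := hPk p hp
    have h2 : k + 1 ≤ p := by omega
    have h3 : ((k + 1 : ℕ) : ℝ) ≤ p := by exact_mod_cast h2
    push_cast at h3
    linarith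
  have hq1' : ∀ p ∈ P, ∑ j, q p j ≤ 1 := fun p hp => by
    calc ∑ j, q p j ≤ ∑ _j : Fin k, 1 / ((p : ℝ) - 1) := Finset.sum_le_sum fun j _ => hq1 p hp j
      _ = k * (1 / ((p : ℝ) - 1)) := by
        rw [Finset.sum_const, Finset.card_univ, Fintype.card_fin, nsmul_eq_mul]
      _ ≤ 1 := by
        rw [mul_one_div, div_le_one (by linarith [hpos p hp])]
        exact hp1 p hp
  have h := EE_upper (P := P) (k := k) q hq0 hq1' (zt g R q)
  have hL : EE q (fun a : Col P k => Lam g R a ^ 2) =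
      EE q (fun a : Col P k => (∑ c : Col P k, zt g R q c * ∏ p : {p // p ∈ P}, psi (q p) (c p) (a p)) ^ 2) := by
    congr 1
    funext a
    rw [Lam_expand g R q a]
  rw [hL]
  refine h.trans ?_
  set E1 := ∏ p ∈ P, (1 + ∑ j, |q p j - 1 / (p : ℝ)|) with hE1
  have hE1le : E1 ≤ Real.exp (1 / 4) :=
    (prod_one_add_le_exp P _ fun p _ => Finset.sum_nonneg fun j _ => abs_nonneg _).trans
      (Real.exp_le_exp.2 hq2)
  have hE10 : 0 ≤ E1 := Finset.prod_nonneg fun p _ => by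
    have : 0 ≤ ∑ j, |q p j - 1 / (p : ℝ)| := Finset.sum_nonneg fun j _ => abs_nonneg _
    linarith
  set e : ℕ → ℝ := fun p => 1 / ((p : ℝ) - 1) - 1 / p with he
  have he0 : ∀ p ∈ P, 0 ≤ e p := fun p hp => by
    have h2 := hpos p hp
    rw [he]
    simp only
    rw [sub_nonneg]
    exact one_div_le_one_div_of_le (by linarith) (by linarith)
  have hele : ∀ p ∈ P, e p ≤ 1 / ((p : ℝ) - 1) ^ 2 := fun p hp => by
    have h2 := hpos p hp
    rw [he]
    simp only
    rw [div_sub_div _ _ (by linarith) (by linarith), div_le_div_iff₀ (by nlinarith) (by nlinarith)]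
    nlinarith
  have hu0 : ∀ p ∈ P, (0 : ℝ) ≤ 1 / (p : ℝ) := fun p _ => by positivity
  have hA : ∑ D ∈ P.powerset, g (∏ p ∈ D, p) ^ 2 * ∏ p ∈ D, (1 / ((p : ℝ) - 1)) ≤
      (∏ p ∈ P, (1 + e p)) * A2 P g := by
    have := sum_powerset_perturb (fun p => 1 / (p : ℝ)) e P hu0 he0 (fun D => g (∏ p ∈ D, p) ^ 2)
      (fun D _ => sq_nonneg _)
      (fun D hD D' hD' => pow_le_pow_left₀ (hg.nonneg D hD) (hg.anti D hD D' hD') 2)
    rw [A2_eq]
    refine le_trans (le_of_eq ?_) this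
    refine Finset.sum_congr rfl fun D _ => ?_
    congr 1
    refine Finset.prod_congr rfl fun p _ => ?_
    rw [he]
    ring
  have hA20 : 0 ≤ A2 P g := by
    rw [A2_eq]
    exact Finset.sum_nonneg fun D _ => mul_nonneg (sq_nonneg _) (Finset.prod_nonneg fun p _ => by positivity)
  have hEe : (∏ p ∈ P, (1 + e p)) ^ k ≤ Real.exp (1 / 4) := by
    have h1 : ∏ p ∈ P, (1 + e p) ≤ Real.exp (∑ p ∈ P, 1 / ((p : ℝ) - 1) ^ 2) :=
      (prod_one_add_le_exp P _ he0).trans (Real.exp_le_exp.2 (Finset.sum_le_sum hele))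
    calc (∏ p ∈ P, (1 + e p)) ^ k ≤ (Real.exp (∑ p ∈ P, 1 / ((p : ℝ) - 1) ^ 2)) ^ k :=
          pow_le_pow_left₀ (Finset.prod_nonneg fun p hp => by linarith [he0 p hp]) h1 k
      _ = Real.exp ((k : ℝ) * ∑ p ∈ P, 1 / ((p : ℝ) - 1) ^ 2) := by rw [← Real.exp_nat_mul]
      _ ≤ _ := Real.exp_le_exp.2 hσ
  calc ∑ c : Col P k, (∏ p : {p // p ∈ P}, dw 1 (q p) (c p)) * zt g R q c ^ 2
      ≤ ∑ c : Col P k, E1 ^ 2 * ∏ j, (g (∏ p ∈ cset c j, p) ^ 2 * ∏ p ∈ cset c j, (1 / ((p : ℝ) - 1))) := by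
        refine Finset.sum_le_sum fun c _ => ?_
        rw [dw_prod (fun _ => 1) q c]
        simp only [one_mul]
        rw [← GG_sq g c (fun p _ => 1 / ((p : ℝ) - 1))]
        have h1 : ∏ j, ∏ p ∈ cset c j, q p j ≤ ∏ j : Fin k, ∏ p ∈ cset c j, (1 / ((p : ℝ) - 1)) :=
          Finset.prod_le_prod (fun j _ => Finset.prod_nonneg fun p hp => hq0 p (cset_subset c j hp) j)
            (fun j _ => Finset.prod_le_prod (fun p hp => hq0 p (cset_subset c j hp) j)
              (fun p hp => hq1 p (cset_subset c j hp) j))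
        have h2 : zt g R q c ^ 2 ≤ E1 ^ 2 * GG g c ^ 2 := by
          have h3 := zt_bound hP hg R q c
          have h4 : |zt g R q c| ≤ GG g c * E1 := by
            refine h3.trans (mul_le_mul_of_nonneg_right ?_ hE10)
            split_ifs
            · rw [one_mul]
            · rw [zero_mul]
              exact GG_nonneg hg c
          calc zt g R q c ^ 2 = |zt g R q c| ^ 2 := (sq_abs _).symm
            _ ≤ (GG g c * E1) ^ 2 := pow_le_pow_left₀ (abs_nonneg _) h4 2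
            _ = _ := by ring
        calc (∏ j, ∏ p ∈ cset c j, q p j) * zt g R q c ^ 2
            ≤ (∏ j : Fin k, ∏ p ∈ cset c j, (1 / ((p : ℝ) - 1))) * (E1 ^ 2 * GG g c ^ 2) :=
              mul_le_mul h1 h2 (sq_nonneg _) (Finset.prod_nonneg fun j _ => Finset.prod_nonneg fun p hp => by
                have := hpos p (cset_subset c j hp)
                exact (one_div_pos.2 (by linarith)).le)
          _ = _ := by ring
    _ = E1 ^ 2 * ∑ c : Col P k, ∏ j, (g (∏ p ∈ cset c j, p) ^ 2 * ∏ p ∈ cset c j, (1 / ((p : ℝ) - 1))) := by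
        rw [Finset.mul_sum]
    _ ≤ E1 ^ 2 * ∏ _j : Fin k, ∑ D ∈ P.powerset, (g (∏ p ∈ D, p) ^ 2 * ∏ p ∈ D, (1 / ((p : ℝ) - 1))) := by
        refine mul_le_mul_of_nonneg_left ?_ (sq_nonneg _)
        refine sum_col_le Finset.univ (fun _ => P.powerset)
          (fun _ D => g (∏ p ∈ D, p) ^ 2 * ∏ p ∈ D, (1 / ((p : ℝ) - 1))) ?_ ?_
        · exact fun c _ j => Finset.mem_powerset.2 (cset_subset c j)
        · intro j D hD
          refine mul_nonneg (sq_nonneg _) (Finset.prod_nonneg fun p hp => ?_)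
          have := hpos p (Finset.mem_powerset.1 hD hp)
          exact (one_div_pos.2 (by linarith)).le
    _ ≤ E1 ^ 2 * ((∏ p ∈ P, (1 + e p)) * A2 P g) ^ k := by
        refine mul_le_mul_of_nonneg_left ?_ (sq_nonneg _)
        rw [Finset.prod_const, Finset.card_univ, Fintype.card_fin]
        refine pow_le_pow_left₀ (Finset.sum_nonneg fun D hD => ?_) hA k
        refine mul_nonneg (sq_nonneg _) (Finset.prod_nonneg fun p hp => ?_)
        have := hpos p (Finset.mem_powerset.1 hD hp)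
        exact (one_div_pos.2 (by linarith)).le
    _ = E1 ^ 2 * (∏ p ∈ P, (1 + e p)) ^ k * A2 P g ^ k := by rw [mul_pow]; ring
    _ ≤ 8 * A2 P g ^ k := by
        refine mul_le_mul_of_nonneg_right ?_ (pow_nonneg hA20 k)
        calc E1 ^ 2 * (∏ p ∈ P, (1 + e p)) ^ k ≤ Real.exp (1 / 4) ^ 2 * Real.exp (1 / 4) :=
              mul_le_mul (pow_le_pow_left₀ hE10 hE1le 2) hEe
                (pow_nonneg (Finset.prod_nonneg fun p hp => by linarith [he0 p hp]) k) (by positivity)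
          _ = Real.exp (3 / 4) := by
              rw [← Real.exp_nat_mul, ← Real.exp_add]
              norm_num
          _ ≤ Real.exp 1 := Real.exp_le_exp.2 (by norm_num)
          _ ≤ 8 := by linarith [Real.exp_one_lt_d9]

end Pool.Agent.H90.MT
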