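import Pool.Agent.H90.MT.T4b

/-! T4: lower bound for primes in the m-th position. -/

set_option autoImplicit false
open Finset

namespace Pool.Agent.H90.MT

variable {P : Finset ℕ} {k : ℕ}

theorem local_ineq (k p : ℝ) (hk : 1 ≤ k) (hp : 2 * k + 2 < p) :
    (1 / p) * (1 - (k + 1) / (p - 1)) ≤
      (1 - (k - 1) * (1 / (p - 1))) * (1 / (p - 1)) / (1 + 1 / p) ^ 2 := by
  have hp0 : 0 < p := by linarith
  have hp1 : 0 < p - 1 := by linarith
  have hp2 : 0 < p + 1 := by linarith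
  have e1 : (1 / p) * (1 - (k + 1) / (p - 1)) = (p - k - 2) / (p * (p - 1)) := by
    field_simp
    ring
  have e2 : (1 - (k - 1) * (1 / (p - 1))) * (1 / (p - 1)) / (1 + 1 / p) ^ 2 =
      (p - k) * p ^ 2 / ((p - 1) ^ 2 * (p + 1) ^ 2) := by
    field_simp
    ring
  rw [e1, e2, div_le_div_iff₀ (by positivity) (by positivity)]
  have key : (p - k - 2) * ((p - 1) * (p + 1) ^ 2) ≤ (p - k) * p ^ 3 := by
    have h1 : (p - k) * (p ^ 2 - p - 1) ≤ p * p ^ 2 := by nlinarith [mul_pos hp0 hp0]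
    nlinarith [mul_pos hp0 hp0]
  calc (p - k - 2) * ((p - 1) ^ 2 * (p + 1) ^ 2) = ((p - k - 2) * ((p - 1) * (p + 1) ^ 2)) * (p - 1) := by ring
    _ ≤ ((p - k) * p ^ 3) * (p - 1) := mul_le_mul_of_nonneg_right key hp1.le
    _ = _ := by ring

/-- T4: lower bound for primes in the m-th position -/
theorem T4 (hP : ∀ p ∈ P, p.Prime) (hPk : ∀ p ∈ P, 2 * k + 2 < p) (_hk : 2 ≤ k) (g : ℕ → ℝ)
    (hg : GOK P g) (R Q : ℝ) (hQ : 1 ≤ Q) (hQR : Q < R) (hsupp : ∀ D ⊆ P, Q < ((∏ p ∈ D, p : ℕ) : ℝ) → g (∏ p ∈ D, p) = 0)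
    (m : Fin k) (hσ : (k : ℝ) ^ 2 * ∑ p ∈ P, 1 / ((p : ℝ) - 1) ^ 2 ≤ 1 / 4) :
    (A1 P g) ^ 2 * ((A2 P g) ^ (k - 1) - ((k : ℝ) - 1) * (A2 P g) ^ (k - 2) * B1 P g / Real.log (R / Q) -
      40 * (k : ℝ) ^ 2 * (∑ p ∈ P, 1 / ((p : ℝ) - 1) ^ 2) * (A2 P g) ^ (k - 1)) ≤
    EE (fun p (j : Fin k) => if j = m then 0 else 1 / ((p : ℝ) - 1)) (fun a : Col P k => Lam g R a ^ 2) := by
  classical
  have hk1 : (1 : ℝ) ≤ k := by
    have : 0 < k := Fin.pos m
    exact_mod_cast this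
  have hpk : ∀ p ∈ P, 2 * (k : ℝ) + 2 < p := fun p hp => by exact_mod_cast hPk p hp
  set σ : ℝ := ∑ p ∈ P, 1 / ((p : ℝ) - 1) ^ 2 with hσdef
  have hσ0 : 0 ≤ σ := Finset.sum_nonneg fun p _ => by positivity
  have hkσ : (k : ℝ) * σ ≤ 1 / 4 := by
    have : (k : ℝ) * σ ≤ (k : ℝ) ^ 2 * σ := by
      refine mul_le_mul_of_nonneg_right ?_ hσ0
      clear * - hk1
      nlinarith
    linarith
  have hee0 : ∀ p ∈ P, 0 ≤ ee p := fun p hp => by
    unfold ee
    rw [sub_nonneg]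
    have := hpk p hp
    exact one_div_le_one_div_of_le (by linarith) (by linarith)
  have heele : ∀ p ∈ P, ee p ≤ 1 / ((p : ℝ) - 1) ^ 2 := fun p hp => by
    have h2 := hpk p hp
    have h3 : (2 : ℝ) < p := by linarith
    unfold ee
    clear * - h3
    rw [div_sub_div _ _ (by linarith) (by linarith), div_le_div_iff₀ (by nlinarith) (by nlinarith)]
    nlinarith
  set Pi' := ∏ p ∈ P, (1 + ((k : ℝ) - 1) * ee p) with hPi'
  have hPi1 : 1 ≤ Pi' := by
    rw [hPi']
    calc (1 : ℝ) = ∏ _p ∈ P, (1 : ℝ) := by rw [Finset.prod_const_one]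
      _ ≤ _ := Finset.prod_le_prod (fun _ _ => zero_le_one) fun p hp => by
          have := mul_nonneg (sub_nonneg.2 hk1) (hee0 p hp)
          linarith
  have hPile : Pi' ≤ 1 + 2 * ((k : ℝ) * σ) := by
    have h1 : Pi' ≤ Real.exp ((k : ℝ) * σ) := by
      refine (prod_one_add_le_exp P _ fun p hp => mul_nonneg (sub_nonneg.2 hk1) (hee0 p hp)).trans ?_
      refine Real.exp_le_exp.2 ?_
      rw [← Finset.mul_sum]
      have h3 : ∑ p ∈ P, ee p ≤ σ := Finset.sum_le_sum heele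
      have h4 : 0 ≤ ∑ p ∈ P, ee p := Finset.sum_nonneg hee0
      clear * - h3 h4 hk1
      nlinarith
    have h2 : Real.exp ((k : ℝ) * σ) ≤ 1 + 2 * ((k : ℝ) * σ) := by
      set x := (k : ℝ) * σ with hx
      have hx0 : 0 ≤ x := mul_nonneg (by linarith) hσ0
      have h3 := Real.add_one_le_exp (-x)
      have h4 : Real.exp x * Real.exp (-x) = 1 := by rw [← Real.exp_add]; simp
      have h5 : 0 < Real.exp x := Real.exp_pos x
      have h6 : Real.exp x * (1 - x) ≤ 1 := by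
        clear * - h3 h4 h5
        nlinarith
      clear * - h6 h5 hx0 hkσ
      nlinarith
    exact h1.trans h2
  -- Step 1
  have hstep1 : ∀ r : Col P k, cset r m = ∅ → (nn r : ℝ) * Q ≤ R →
      GG g r * A1 P g * (2 - Pi') ≤ (∏ p ∈ sup1 r, (1 + 1 / (p : ℝ))) * |zt g R (qm m) r| := by
    intro r hr hrQ
    have h1 := zt_lower hP g hg R Q hQ hsupp m r hr hrQ
    have h2 : A1 P g ≤ (∏ p ∈ sup1 r, (1 + 1 / (p : ℝ))) *
        ∑ D ∈ P.powerset, g (∏ p ∈ D, p) * ∏ p ∈ D, (if p ∈ sup1 r then 0 else 1 / (p : ℝ)) := by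
      have hU : sup1 r ∪ (P \ sup1 r) = P := Finset.union_sdiff_of_subset (sup1_subset r)
      have h3 := sum_powerset_union (fun p => 1 / (p : ℝ)) (P \ sup1 r) (fun p _ => by positivity) (sup1 r)
        Finset.disjoint_sdiff (fun p _ => by positivity) (fun D => g (∏ p ∈ D, p))
        (fun D hD => hg.nonneg D (by rwa [hU] at hD))
        (fun D hD D' hD' => hg.anti D (by rwa [hU] at hD) D' hD')
      rw [hU, ← A1_eq] at h3
      refine h3.trans (mul_le_mul_of_nonneg_left ?_ (Finset.prod_nonneg fun p _ => by positivity))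
      calc ∑ D ∈ (P \ sup1 r).powerset, g (∏ p ∈ D, p) * ∏ p ∈ D, (1 / (p : ℝ))
          = ∑ D ∈ (P \ sup1 r).powerset, g (∏ p ∈ D, p) * ∏ p ∈ D, (if p ∈ sup1 r then 0 else 1 / (p : ℝ)) := by
            refine Finset.sum_congr rfl fun D hD => ?_
            congr 1
            refine Finset.prod_congr rfl fun p hp => ?_
            rw [if_neg (Finset.mem_sdiff.1 (Finset.mem_powerset.1 hD hp)).2]
        _ ≤ _ := by
            refine Finset.sum_le_sum_of_subset_of_nonneg (Finset.powerset_mono.2 Finset.sdiff_subset) ?_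
            intro D hD _
            refine mul_nonneg (hg.nonneg D (Finset.mem_powerset.1 hD)) (Finset.prod_nonneg fun p _ => ?_)
            split_ifs
            · exact le_refl _
            · positivity
    have hG := GG_nonneg hg r
    have h2P : 0 ≤ 2 - Pi' := by linarith
    have hPr : 0 ≤ ∏ p ∈ sup1 r, (1 + 1 / (p : ℝ)) := Finset.prod_nonneg fun p _ => by positivity
    calc GG g r * A1 P g * (2 - Pi') ≤ GG g r * ((∏ p ∈ sup1 r, (1 + 1 / (p : ℝ))) *
        ∑ D ∈ P.powerset, g (∏ p ∈ D, p) * ∏ p ∈ D, (if p ∈ sup1 r then 0 else 1 / (p : ℝ))) * (2 - Pi') :=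
          mul_le_mul_of_nonneg_right (mul_le_mul_of_nonneg_left h2 hG) h2P
      _ = (∏ p ∈ sup1 r, (1 + 1 / (p : ℝ))) * (GG g r *
        (∑ D ∈ P.powerset, g (∏ p ∈ D, p) * ∏ p ∈ D, (if p ∈ sup1 r then 0 else 1 / (p : ℝ))) * (2 - Pi')) := by
          ring
      _ ≤ _ := mul_le_mul_of_nonneg_left h1 hPr
  -- Step 2
  have hq0 : ∀ p ∈ P, ∀ j, 0 ≤ qm m p j := fun p hp j => by
    unfold qm
    split_ifs
    · exact le_refl _
    · have := hpk p hp
      exact (one_div_pos.2 (by linarith)).le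
  have hqs : ∀ p : ℕ, ∑ j, qm m p j = ((k : ℝ) - 1) * (1 / ((p : ℝ) - 1)) := fun p => by
    rw [← Finset.add_sum_erase Finset.univ _ (Finset.mem_univ m)]
    rw [show qm m p m = 0 by simp [qm], zero_add]
    rw [Finset.sum_congr rfl (g := fun _ => 1 / ((p : ℝ) - 1)) (fun j hj => by
      unfold qm
      rw [if_neg (Finset.ne_of_mem_erase hj)])]
    rw [Finset.sum_const, Finset.card_erase_of_mem (Finset.mem_univ m), Finset.card_univ,
      Fintype.card_fin, nsmul_eq_mul]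
    have : 1 ≤ k := Fin.pos m
    push_cast [Nat.cast_sub this]
    ring
  have hq1 : ∀ p ∈ P, ∑ j, qm m p j ≤ 1 := fun p hp => by
    rw [hqs p, mul_one_div, div_le_one (by linarith [hpk p hp])]
    linarith [hpk p hp]
  have hEE := EE_lower (P := P) (k := k) (qm m) hq0 hq1 (zt g R (qm m))
  have hL : EE (fun p (j : Fin k) => if j = m then 0 else 1 / ((p : ℝ) - 1)) (fun a : Col P k => Lam g R a ^ 2) =
      EE (qm m) (fun a : Col P k => (∑ c : Col P k, zt g R (qm m) c *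
        ∏ p : {p // p ∈ P}, psi (qm m p) (c p) (a p)) ^ 2) := by
    have : (fun (p : ℕ) (j : Fin k) => if j = m then (0 : ℝ) else 1 / ((p : ℝ) - 1)) = (qm m : ℕ → Fin k → ℝ) := rfl
    rw [this]
    congr 1
    funext a
    rw [Lam_expand g R (qm m) a]
  rw [hL]
  refine le_trans ?_ hEE
  set y : ℕ → ℝ := fun p => ((k : ℝ) + 1) / ((p : ℝ) - 1) with hy
  set gd : Finset (Col P k) := Finset.univ.filter fun r : Col P k => cset r m = ∅ ∧ (nn r : ℝ) * Q ≤ R with hgd
  set T' : ℝ := ∑ r ∈ gd, GG g r ^ 2 * ∏ p ∈ sup1 r, ((1 / (p : ℝ)) * (1 - y p)) with hT'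
  have hy0 : ∀ p ∈ P, 0 ≤ y p := fun p hp => div_nonneg (by linarith) (by linarith [hpk p hp])
  have hy1 : ∀ p ∈ P, y p ≤ 1 := fun p hp => by
    rw [hy]
    simp only
    rw [div_le_one (by linarith [hpk p hp])]
    linarith [hpk p hp]
  have hstep2 : (A1 P g) ^ 2 * (2 - Pi') ^ 2 * T' ≤
      ∑ c : Col P k, (∏ p : {p // p ∈ P}, dw (1 - ∑ j, qm m p j) (qm m p) (c p)) * zt g R (qm m) c ^ 2 := by
    have hnn : ∀ c : Col P k, 0 ≤ (∏ p : {p // p ∈ P}, dw (1 - ∑ j, qm m p j) (qm m p) (c p)) * zt g R (qm m) c ^ 2 :=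
      fun c => mul_nonneg (Finset.prod_nonneg fun p _ =>
        dw_nonneg _ (sub_nonneg.2 (hq1 p p.2)) _ (hq0 p p.2) _) (sq_nonneg _)
    refine le_trans ?_ (Finset.sum_le_sum_of_subset_of_nonneg (Finset.subset_univ gd) (fun c _ _ => hnn c))
    rw [hT', Finset.mul_sum]
    refine Finset.sum_le_sum fun r hr => ?_
    obtain ⟨hr1, hr2⟩ := (Finset.mem_filter.1 hr).2
    have h1 := hstep1 r hr1 hr2
    set z := |zt g R (qm m) r| with hz
    set U := ∏ p ∈ sup1 r, (1 + 1 / (p : ℝ)) with hU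
    have hU0 : 0 < U := Finset.prod_pos fun p _ => by positivity
    -- weights
    have e1 : ∏ p : {p // p ∈ P}, dw (1 - ∑ j, qm m p j) (qm m p) (r p) =
        ∏ p ∈ sup1 r, ((1 - ((k : ℝ) - 1) * (1 / ((p : ℝ) - 1))) * (1 / ((p : ℝ) - 1))) := by
      rw [prod_sup1]
      refine Finset.prod_congr rfl fun p _ => ?_
      have hne := cset_empty_ne hr1 p
      cases hrp : r p with
      | none => simp [dw]
      | some j =>
        rw [if_neg (by simp)]
        simp only [dw]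
        rw [hqs p]
        have hj : j ≠ m := fun h => hne (by rw [hrp, h])
        simp [qm, hj]
    rw [e1]
    set V := ∏ p ∈ sup1 r, ((1 - ((k : ℝ) - 1) * (1 / ((p : ℝ) - 1))) * (1 / ((p : ℝ) - 1))) with hV
    have h2 : ∏ p ∈ sup1 r, ((1 / (p : ℝ)) * (1 - y p)) ≤ V / U ^ 2 := by
      rw [hV, hU, ← Finset.prod_pow, ← Finset.prod_div_distrib]
      refine Finset.prod_le_prod (fun p hp => ?_) fun p hp => ?_
      · exact mul_nonneg (by positivity) (sub_nonneg.2 (hy1 p (sup1_subset r hp)))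
      · exact local_ineq k p hk1 (hpk p (sup1_subset r hp))
    have h3 : (GG g r * A1 P g * (2 - Pi')) ^ 2 ≤ (U * z) ^ 2 := by
      refine pow_le_pow_left₀ ?_ h1 2
      refine mul_nonneg (mul_nonneg (GG_nonneg hg r) ?_) (by linarith)
      rw [A1_eq]
      exact Finset.sum_nonneg fun D hD => mul_nonneg (hg.nonneg D (Finset.mem_powerset.1 hD))
        (Finset.prod_nonneg fun p _ => by positivity)
    have h4 : 0 ≤ V := by
      rw [hV]
      refine Finset.prod_nonneg fun p hp => ?_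
      have h5 := hq1 p (sup1_subset r hp)
      rw [hqs p] at h5
      have h6 := hpk p (sup1_subset r hp)
      exact mul_nonneg (by linarith) (one_div_pos.2 (by linarith)).le
    have hz2 : zt g R (qm m) r ^ 2 = z ^ 2 := (sq_abs _).symm
    rw [hz2]
    calc A1 P g ^ 2 * (2 - Pi') ^ 2 * (GG g r ^ 2 * ∏ p ∈ sup1 r, (1 / (p : ℝ) * (1 - y p)))
        = (GG g r * A1 P g * (2 - Pi')) ^ 2 * ∏ p ∈ sup1 r, (1 / (p : ℝ) * (1 - y p)) := by ring
      _ ≤ (GG g r * A1 P g * (2 - Pi')) ^ 2 * (V / U ^ 2) :=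
          mul_le_mul_of_nonneg_left h2 (sq_nonneg _)
      _ ≤ (U * z) ^ 2 * (V / U ^ 2) :=
          mul_le_mul_of_nonneg_right h3 (div_nonneg h4 (sq_nonneg _))
      _ = V * z ^ 2 := by
          field_simp
  refine le_trans ?_ hstep2
  -- Step 3
  have hgood := good_sum hP hg m R Q (by linarith) hQR y hy0 hy1
  rw [← hgd, ← hT'] at hgood
  set X := A2 P g ^ (k - 1) with hX
  have hX0 : 0 ≤ X := pow_nonneg (A2_nonneg P g) _
  have hs1 : ∑ p ∈ P, y p / p ≤ ((k : ℝ) + 1) * σ := by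
    rw [hσdef, Finset.mul_sum]
    refine Finset.sum_le_sum fun p hp => ?_
    have h2 := hpk p hp
    rw [hy]
    simp only
    rw [div_div, mul_one_div]
    have h3 : (2 : ℝ) < p := by linarith
    clear * - h3 hk1
    refine div_le_div_of_nonneg_left (by linarith) (by nlinarith) (by nlinarith)
  have hs2 : ∑ p ∈ P, (1 / (p : ℝ)) ^ 2 ≤ σ := by
    rw [hσdef]
    refine Finset.sum_le_sum fun p hp => ?_
    have h2 := hpk p hp
    rw [div_pow, one_pow]
    have h3 : (2 : ℝ) < p := by linarith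
    clear * - h3
    exact one_div_le_one_div_of_le (by nlinarith) (by nlinarith)
  have hT0 : 0 ≤ T' := Finset.sum_nonneg fun r _ => mul_nonneg (sq_nonneg _)
    (Finset.prod_nonneg fun p hp => mul_nonneg (by positivity) (sub_nonneg.2 (hy1 p (sup1_subset r hp))))
  have hTle : T' ≤ X := by
    have h1 : T' ≤ ∑ r ∈ gd, ∏ j, ff g (cset r j) := by
      refine Finset.sum_le_sum fun r _ => ?_
      have e1 : ∏ j, ff g (cset r j) = GG g r ^ 2 * ∏ p ∈ sup1 r, (1 / (p : ℝ)) := by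
        rw [prod_sup1_cset r (fun p => 1 / (p : ℝ))]
        simp only [ff]
        rw [← GG_sq g r (fun p _ => 1 / (p : ℝ))]
        ring
      rw [e1]
      refine mul_le_mul_of_nonneg_left ?_ (sq_nonneg _)
      refine Finset.prod_le_prod (fun p hp => mul_nonneg (by positivity) (sub_nonneg.2 (hy1 p (sup1_subset r hp)))) fun p hp => ?_
      have := hy0 p (sup1_subset r hp)
      exact mul_le_of_le_one_right (by positivity) (by linarith)
    refine h1.trans ?_
    have h2 := sum_col_le gd (fun j => if j = m then {∅} else P.powerset) (fun _ => ff g) (fun c hc j => by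
      split_ifs with hj
      · rw [Finset.mem_singleton, hj]
        exact (Finset.mem_filter.1 hc).2.1
      · exact Finset.mem_powerset.2 (cset_subset c j)) (fun j D _ => ff_nonneg g D)
    refine h2.trans (le_of_eq ?_)
    rw [hX, ← prod_ite_pow m (A2 P g)]
    refine Finset.prod_congr rfl fun j _ => ?_
    by_cases hj : j = m
    · simp only [if_pos hj, Finset.sum_singleton]
      exact ff_empty hg
    · simp only [if_neg hj]
      exact (A2_ff P g).symm
  have hsq : 1 - 4 * ((k : ℝ) * σ) ≤ (2 - Pi') ^ 2 := by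
    clear * - hPile
    nlinarith [sq_nonneg (Pi' - 1)]
  have h5 : (2 - Pi') ^ 2 * T' ≥ T' - 4 * ((k : ℝ) * σ) * X := by
    have h6 := mul_le_mul_of_nonneg_right hsq hT0
    have h7 : 4 * ((k : ℝ) * σ) * T' ≤ 4 * ((k : ℝ) * σ) * X :=
      mul_le_mul_of_nonneg_left hTle (by positivity)
    linarith
  have h8 : (k : ℝ) * (∑ p ∈ P, y p / p) * X ≤ (k : ℝ) * (((k : ℝ) + 1) * σ) * X :=
    mul_le_mul_of_nonneg_right (mul_le_mul_of_nonneg_left hs1 (by linarith)) hX0
  have h9 : (k : ℝ) ^ 2 * (∑ p ∈ P, (1 / (p : ℝ)) ^ 2) * X ≤ (k : ℝ) ^ 2 * σ * X :=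
    mul_le_mul_of_nonneg_right (mul_le_mul_of_nonneg_left hs2 (sq_nonneg _)) hX0
  have h10 : (k : ℝ) * (((k : ℝ) + 1) * σ) * X + (k : ℝ) ^ 2 * σ * X + 4 * ((k : ℝ) * σ) * X ≤
      40 * (k : ℝ) ^ 2 * σ * X := by
    have hkk : (k : ℝ) ≤ (k : ℝ) ^ 2 := by
      clear * - hk1
      nlinarith
    have h11 : (k : ℝ) * (((k : ℝ) + 1) * σ) * X + (k : ℝ) ^ 2 * σ * X + 4 * ((k : ℝ) * σ) * X =
        (2 * (k : ℝ) ^ 2 + 5 * k) * (σ * X) := by ring
    rw [h11]
    have h12 : 40 * (k : ℝ) ^ 2 * σ * X = 40 * (k : ℝ) ^ 2 * (σ * X) := by ring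
    rw [h12]
    refine mul_le_mul_of_nonneg_right ?_ (mul_nonneg hσ0 hX0)
    clear * - hkk
    nlinarith
  have h13 : A1 P g ^ 2 * (2 - Pi') ^ 2 * T' = A1 P g ^ 2 * ((2 - Pi') ^ 2 * T') := by ring
  rw [h13]
  refine mul_le_mul_of_nonneg_left ?_ (sq_nonneg _)
  linarith

end Pool.Agent.H90.MT
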