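import Pool.Agent.H90.MT.T1

/-! Lower bound for the new coefficients. -/

set_option autoImplicit false
open Finset

namespace Pool.Agent.H90.MT

variable {P : Finset ℕ} {k : ℕ}

/-- support of a colouring -/
def sup1 (r : Col P k) : Finset ℕ :=
  (Finset.univ.filter fun p : {p // p ∈ P} => r p ≠ none).map (Function.Embedding.subtype _)

theorem mem_sup1 (r : Col P k) (p : {p // p ∈ P}) : (p : ℕ) ∈ sup1 r ↔ r p ≠ none := by
  unfold sup1
  rw [Finset.mem_map]
  constructor
  · rintro ⟨x, hx, hxp⟩
    have : x = p := Subtype.ext hxp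
    subst this
    exact (Finset.mem_filter.1 hx).2
  · intro h
    exact ⟨p, Finset.mem_filter.2 ⟨Finset.mem_univ _, h⟩, rfl⟩

theorem sup1_subset (r : Col P k) : sup1 r ⊆ P := by
  intro x hx
  unfold sup1 at hx
  obtain ⟨y, _, hy⟩ := Finset.mem_map.1 hx
  rw [← hy]
  exact y.2

theorem prod_sup1 {N : Type} [CommMonoid N] (r : Col P k) (f : ℕ → N) :
    ∏ p ∈ sup1 r, f p = ∏ p : {p // p ∈ P}, if r p = none then 1 else f p := by
  unfold sup1
  rw [Finset.prod_map, Finset.prod_filter]
  refine Finset.prod_congr rfl fun p _ => ?_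
  by_cases h : r p = none
  · simp [h]
  · simp [h]

theorem prod_sup1_cset {N : Type} [CommMonoid N] (r : Col P k) (f : ℕ → N) :
    ∏ p ∈ sup1 r, f p = ∏ j, ∏ p ∈ cset r j, f p := by
  rw [prod_sup1, ← prod_wt (fun p _ => f p) r]
  refine Finset.prod_congr rfl fun p _ => ?_
  cases r p <;> simp

theorem sum_sup1_cset (r : Col P k) (f : ℕ → ℝ) :
    ∑ p ∈ sup1 r, f p = ∑ j, ∑ p ∈ cset r j, f p := by
  have h := prod_sup1_cset (N := Multiplicative ℝ) r (fun p => Multiplicative.ofAdd (f p))
  have e1 : ∀ s : Finset ℕ, ∏ p ∈ s, Multiplicative.ofAdd (f p) = Multiplicative.ofAdd (∑ p ∈ s, f p) :=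
    fun s => (ofAdd_sum s f).symm
  simp_rw [e1] at h
  rw [← ofAdd_sum] at h
  exact Multiplicative.ofAdd.injective h

/-- e_p -/
noncomputable def ee (p : ℕ) : ℝ := 1 / ((p : ℝ) - 1) - 1 / p

/-- the densities for primes in position `m` -/
noncomputable def qm (m : Fin k) (p : ℕ) (j : Fin k) : ℝ := if j = m then 0 else 1 / ((p : ℝ) - 1)

theorem cset_empty_ne {r : Col P k} {m : Fin k} (hr : cset r m = ∅) (p : {p // p ∈ P}) : r p ≠ some m := by
  intro h
  have : (p : ℕ) ∈ cset r m := (mem_cset r m p).2 ⟨p.2, h⟩
  rw [hr] at this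
  exact absurd this (Finset.notMem_empty _)

theorem zt_lower (hP : ∀ p ∈ P, p.Prime) (g : ℕ → ℝ)
    (hg : GOK P g) (R Q : ℝ) (hQ : 1 ≤ Q)
    (hsupp : ∀ D ⊆ P, Q < ((∏ p ∈ D, p : ℕ) : ℝ) → g (∏ p ∈ D, p) = 0)
    (m : Fin k) (r : Col P k) (hr : cset r m = ∅) (hrQ : (nn r : ℝ) * Q ≤ R) :
    GG g r * (∑ D ∈ P.powerset, g (∏ p ∈ D, p) * ∏ p ∈ D, (if p ∈ sup1 r then 0 else 1 / (p : ℝ))) *
      (2 - ∏ p ∈ P, (1 + ((k : ℝ) - 1) * ee p)) ≤ |zt g R (qm m) r| := by
  classical
  have hne := cset_empty_ne hr
  have hk1 : (1 : ℝ) ≤ k := by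
    have : 0 < k := Fin.pos m
    exact_mod_cast this
  have hpos : ∀ p : {p // p ∈ P}, (1 : ℝ) < ((p : ℕ) : ℝ) := fun p => by exact_mod_cast (hP p p.2).one_lt
  have hee : ∀ p : {p // p ∈ P}, 0 ≤ ee (p : ℕ) := fun p => by
    unfold ee
    rw [sub_nonneg]
    exact one_div_le_one_div_of_le (by linarith [hpos p]) (by linarith)
  set mm : {p // p ∈ P} → Fin k → ℝ := fun p j => qm m p j - 1 / ((p : ℕ) : ℝ) with hmm
  have hmm1 : ∀ p, mm p m = - (1 / ((p : ℕ) : ℝ)) := fun p => by
    rw [hmm]
    simp [qm]
  have hmm2 : ∀ p j, j ≠ m → mm p j = ee (p : ℕ) := fun p j hj => by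
    rw [hmm]
    simp [qm, hj, ee]
  set h : {p // p ∈ P} → Option (Fin k) → ℝ := fun p o => |mx (mm p) o (r p)| with hh
  set h' : {p // p ∈ P} → Option (Fin k) → ℝ := fun p o => if (o = r p ∨ o = some m) then h p o else 0 with hh'
  set sr : ℝ := ∏ p, if r p = none then (1 : ℝ) else -1 with hsr
  -- term-wise lower bound
  have hterm : ∀ c : Col P k, GG g r * (2 * (g (∏ p ∈ cset c m, p) * ∏ p, h' p (c p)) -
      g (∏ p ∈ cset c m, p) * ∏ p, h p (c p)) ≤
      sr * (zz g R c * ∏ p : {p // p ∈ P}, mx (mm p) (c p) (r p)) := by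
    intro c
    have hg0 := hg.nonneg _ (cset_subset c m)
    by_cases hz : ∃ p : {p // p ∈ P}, mx (mm p) (c p) (r p) = 0
    · obtain ⟨p, hp⟩ := hz
      have e1 : ∏ p, h p (c p) = 0 := Finset.prod_eq_zero (Finset.mem_univ p) (by
        rw [hh]
        simp only
        rw [hp, abs_zero])
      have e2 : ∏ p, h' p (c p) = 0 := Finset.prod_eq_zero (Finset.mem_univ p) (by
        rw [hh', hh]
        simp only
        rw [hp, abs_zero, ite_self])
      have e3 : ∏ p : {p // p ∈ P}, mx (mm p) (c p) (r p) = 0 := Finset.prod_eq_zero (Finset.mem_univ p) hp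
      rw [e1, e2, e3]
      simp
    · push Not at hz
      have hext : ∀ p, r p ≠ none → c p = r p := fun p hp => mx_ne_zero (hz p) hp
      -- GG c ≤ g(part c m) * GG r
      have hGr : GG g r = ∏ j ∈ Finset.univ.erase m, g (∏ p ∈ cset r j, p) := by
        unfold GG
        rw [← Finset.mul_prod_erase Finset.univ _ (Finset.mem_univ m), hr, Finset.prod_empty, hg.one, one_mul]
      have hGc : GG g c = g (∏ p ∈ cset c m, p) * ∏ j ∈ Finset.univ.erase m, g (∏ p ∈ cset c j, p) := by
        unfold GG
        rw [← Finset.mul_prod_erase Finset.univ _ (Finset.mem_univ m)]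
      have hGle : GG g c ≤ g (∏ p ∈ cset c m, p) * GG g r := by
        rw [hGc, hGr]
        refine mul_le_mul_of_nonneg_left ?_ hg0
        exact Finset.prod_le_prod (fun j _ => hg.nonneg _ (cset_subset c j))
          (fun j _ => hg.anti _ (cset_subset c j) _ (cset_mono_of_ext hext j))
      have hprod0 : 0 ≤ ∏ p, h p (c p) := Finset.prod_nonneg fun p _ => abs_nonneg _
      by_cases hmain : ∀ p, c p = r p ∨ c p = some m
      · -- main terms
        have e2 : ∏ p, h' p (c p) = ∏ p, h p (c p) := Finset.prod_congr rfl fun p _ => by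
          rw [hh']
          simp only
          rw [if_pos (hmain p)]
        have hcs : ∀ j, j ≠ m → cset c j = cset r j := by
          intro j hj
          refine Finset.Subset.antisymm ?_ (cset_mono_of_ext hext j)
          intro x hx
          obtain ⟨h1, h2⟩ := (mem_cset c j x).1 hx
          refine (mem_cset r j x).2 ⟨h1, ?_⟩
          rcases hmain ⟨x, h1⟩ with h3 | h3
          · rw [← h3, h2]
          · rw [h2] at h3
            exact absurd (Option.some.inj h3) hj
        have hGeq : GG g c = g (∏ p ∈ cset c m, p) * GG g r := by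
          rw [hGc, hGr]
          congr 1
          refine Finset.prod_congr rfl fun j hj => ?_
          rw [hcs j (Finset.ne_of_mem_erase hj)]
        have hzz : zz g R c = (∏ p, if c p = none then (1 : ℝ) else -1) * GG g c := by
          unfold zz
          rw [GG_eq]
          by_cases hgc : g (∏ p ∈ cset c m, p) = 0
          · rw [hGeq, hgc]
            simp
          · have hle : ((∏ p ∈ cset c m, p : ℕ) : ℝ) ≤ Q := by
              by_contra hcon
              exact hgc (hsupp _ (cset_subset c m) (not_le.1 hcon))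
            have hnn : (nn c : ℝ) = (nn r : ℝ) * ((∏ p ∈ cset c m, p : ℕ) : ℝ) := by
              have e1 : nn c = nn r * ∏ p ∈ cset c m, p := by
                rw [nn_eq, nn_eq, ← Finset.mul_prod_erase Finset.univ _ (Finset.mem_univ m),
                  ← Finset.mul_prod_erase Finset.univ (fun j => ∏ p ∈ cset r j, p) (Finset.mem_univ m)]
                rw [hr, Finset.prod_empty, one_mul, mul_comm]
                congr 1
                refine Finset.prod_congr rfl fun j hj => ?_
                rw [hcs j (Finset.ne_of_mem_erase hj)]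
              rw [e1]
              push_cast
              ring
            have hle2 : (nn c : ℝ) ≤ R := by
              rw [hnn]
              exact (mul_le_mul_of_nonneg_left hle (by positivity)).trans hrQ
            rw [if_pos hle2, one_mul]
        have hsign : sr * ((∏ p, if c p = none then (1 : ℝ) else -1) *
            ∏ p : {p // p ∈ P}, mx (mm p) (c p) (r p)) = ∏ p, h p (c p) := by
          rw [hsr, ← Finset.prod_mul_distrib, ← Finset.prod_mul_distrib]
          refine Finset.prod_congr rfl fun p _ => ?_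
          rw [hh]
          simp only
          by_cases hcr : c p = r p
          · rw [← hcr]
            have : mx (mm p) (c p) (c p) = 1 := by simp [mx]
            rw [this, abs_one]
            split_ifs <;> norm_num
          · have hrn : r p = none := by
              by_contra hcon
              exact hcr (hext p hcon)
            have hcm : c p = some m := (hmain p).resolve_left hcr
            rw [hrn, hcm]
            have e5 : mx (mm p) (some m) none = - (1 / ((p : ℕ) : ℝ)) := by
              unfold mx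
              rw [if_neg (by simp)]
              simp only [Option.elim_some, if_true]
              exact hmm1 p
            have h6 : (0 : ℝ) ≤ 1 / ((p : ℕ) : ℝ) := by positivity
            rw [e5, abs_neg, abs_of_nonneg h6]
            simp
        rw [e2, hzz, hGeq]
        refine le_of_eq ?_
        calc GG g r * (2 * (g (∏ p ∈ cset c m, p) * ∏ p, h p (c p)) - g (∏ p ∈ cset c m, p) * ∏ p, h p (c p))
            = GG g r * g (∏ p ∈ cset c m, p) * ∏ p, h p (c p) := by ring
          _ = GG g r * g (∏ p ∈ cset c m, p) * (sr * ((∏ p, if c p = none then (1 : ℝ) else -1) *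
            ∏ p : {p // p ∈ P}, mx (mm p) (c p) (r p))) := by rw [hsign]
          _ = _ := by ring
      · -- error terms
        push Not at hmain
        obtain ⟨p, hp1, hp2⟩ := hmain
        have e2 : ∏ p, h' p (c p) = 0 := Finset.prod_eq_zero (Finset.mem_univ p) (by
          rw [hh']
          simp only
          rw [if_neg]
          push Not
          exact ⟨hp1, hp2⟩)
        rw [e2]
        have h3 : |sr * (zz g R c * ∏ p : {p // p ∈ P}, mx (mm p) (c p) (r p))| ≤
            GG g r * (g (∏ p ∈ cset c m, p) * ∏ p, h p (c p)) := by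
          rw [abs_mul, abs_mul, hsr, abs_prod_sign, one_mul, abs_zz hg, Finset.abs_prod]
          have h4 : (if (nn c : ℝ) ≤ R then (1 : ℝ) else 0) * GG g c ≤ g (∏ p ∈ cset c m, p) * GG g r := by
            split_ifs
            · rw [one_mul]
              exact hGle
            · rw [zero_mul]
              exact mul_nonneg hg0 (GG_nonneg hg r)
          calc _ ≤ (g (∏ p ∈ cset c m, p) * GG g r) * ∏ p, h p (c p) :=
                mul_le_mul_of_nonneg_right h4 hprod0
            _ = _ := by ring
        have h5 := (abs_le.1 h3).1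
        linarith
  -- sum up
  have hsum : GG g r * (2 * (∑ c : Col P k, g (∏ p ∈ cset c m, p) * ∏ p, h' p (c p)) -
      ∑ c : Col P k, g (∏ p ∈ cset c m, p) * ∏ p, h p (c p)) ≤ sr * zt g R (qm m) r := by
    unfold zt
    rw [Finset.mul_sum, Finset.mul_sum, ← Finset.sum_sub_distrib, Finset.mul_sum]
    exact Finset.sum_le_sum fun c _ => hterm c
  have hsr1 : sr * zt g R (qm m) r ≤ |zt g R (qm m) r| := by
    calc sr * zt g R (qm m) r ≤ |sr * zt g R (qm m) r| := le_abs_self _
      _ = _ := by rw [abs_mul, hsr, abs_prod_sign, one_mul]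
  refine le_trans ?_ (hsum.trans hsr1)
  -- evaluate both sums
  have hhm : ∀ p, h p (some m) = if (p : ℕ) ∈ sup1 r then 0 else 1 / ((p : ℕ) : ℝ) := by
    intro p
    rw [hh]
    simp only
    by_cases hrn : r p = none
    · rw [if_neg (by rw [mem_sup1]; simpa using hrn), hrn]
      have e5 : mx (mm p) (some m) none = - (1 / ((p : ℕ) : ℝ)) := by
        unfold mx
        rw [if_neg (by simp)]
        simp only [Option.elim_some, if_true]
        exact hmm1 p
      rw [e5, abs_neg, abs_of_nonneg (by positivity)]
    · rw [if_pos (by rw [mem_sup1]; exact hrn)]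
      have : mx (mm p) (some m) (r p) = 0 := by
        unfold mx
        rw [if_neg (fun h => hne p h.symm)]
        simp [hrn]
      rw [this, abs_zero]
  have hev1 : ∑ c : Col P k, g (∏ p ∈ cset c m, p) * ∏ p, h' p (c p) =
      ∑ D ∈ P.powerset, g (∏ p ∈ D, p) * ∏ p ∈ D, (if p ∈ sup1 r then 0 else 1 / (p : ℝ)) := by
    rw [sum_fiber (fun D => g (∏ p ∈ D, p)) m h']
    refine Finset.sum_congr rfl fun D hD => ?_
    congr 1
    have hDP := Finset.mem_powerset.1 hD
    have : ∀ p : {p // p ∈ P}, (if (p : ℕ) ∈ D then h' p (some m) else ∑ o, if o = some m then 0 else h' p o) =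
        if (p : ℕ) ∈ D then (if (p : ℕ) ∈ sup1 r then 0 else 1 / ((p : ℕ) : ℝ)) else 1 := by
      intro p
      split_ifs with h1 h2 h2
      · rw [hh']
        simp only [or_true, if_true]
        rw [hhm p, if_pos h2]
      · rw [hh']
        simp only [or_true, if_true]
        rw [hhm p, if_neg h2]
      · rw [Finset.sum_eq_single (r p)]
        · rw [if_neg (hne p), hh', hh]
          simp [mx]
        · intro o _ ho
          by_cases ho2 : o = some m
          · rw [if_pos ho2]
          · rw [if_neg ho2, hh']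
            simp only
            rw [if_neg]
            push Not
            exact ⟨ho, ho2⟩
        · simp
    rw [Finset.prod_congr rfl fun p _ => this p]
    rw [Finset.prod_coe_sort P (fun p => if p ∈ D then (if p ∈ sup1 r then 0 else 1 / (p : ℝ)) else 1)]
    rw [Finset.prod_ite_mem, Finset.inter_eq_right.2 hDP]
  set Sr := ∑ D ∈ P.powerset, g (∏ p ∈ D, p) * ∏ p ∈ D, (if p ∈ sup1 r then 0 else 1 / (p : ℝ)) with hSr
  set Pi' := ∏ p ∈ P, (1 + ((k : ℝ) - 1) * ee p) with hPi'
  have hxnn : ∀ p : ℕ, (0 : ℝ) ≤ (if p ∈ sup1 r then 0 else 1 / (p : ℝ)) := fun p => by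
    split_ifs
    · exact le_refl _
    · positivity
  have hev2 : ∑ c : Col P k, g (∏ p ∈ cset c m, p) * ∏ p, h p (c p) ≤ Sr * Pi' := by
    rw [sum_fiber (fun D => g (∏ p ∈ D, p)) m h, hSr, Finset.sum_mul]
    refine Finset.sum_le_sum fun D hD => ?_
    rw [mul_assoc]
    have hDP := Finset.mem_powerset.1 hD
    refine mul_le_mul_of_nonneg_left ?_ (hg.nonneg D hDP)
    have e1 : (∏ p ∈ D, (if p ∈ sup1 r then 0 else 1 / (p : ℝ))) * Pi' =
        ∏ p : {p // p ∈ P}, ((if (p : ℕ) ∈ D then (if (p : ℕ) ∈ sup1 r then 0 else 1 / ((p : ℕ) : ℝ)) else 1) *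
          (1 + ((k : ℝ) - 1) * ee p)) := by
      rw [Finset.prod_mul_distrib, hPi', ← Finset.prod_coe_sort P (fun p => (1 + ((k : ℝ) - 1) * ee p))]
      congr 1
      rw [Finset.prod_coe_sort P (fun p => if p ∈ D then (if p ∈ sup1 r then 0 else 1 / (p : ℝ)) else 1)]
      rw [Finset.prod_ite_mem, Finset.inter_eq_right.2 hDP]
    rw [e1]
    have hy0 : ∀ p : {p // p ∈ P}, 0 ≤ ((k : ℝ) - 1) * ee p := fun p =>
      mul_nonneg (by linarith) (hee p)
    refine Finset.prod_le_prod (fun p _ => ?_) fun p _ => ?_
    · split_ifs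
      · exact abs_nonneg _
      · refine Finset.sum_nonneg fun o _ => ?_
        split_ifs
        · exact le_refl _
        · exact abs_nonneg _
    · by_cases h1 : (p : ℕ) ∈ D
      · rw [if_pos h1, if_pos h1, hhm p]
        have := hxnn p
        nlinarith [mul_nonneg this (hy0 p)]
      · rw [if_neg h1, if_neg h1, one_mul]
        have e2 : ∑ o, (if o = some m then 0 else h p o) = (∑ o, h p o) - h p (some m) := by
          rw [← Finset.add_sum_erase Finset.univ (fun o => h p o) (Finset.mem_univ (some m)),
            ← Finset.add_sum_erase Finset.univ (fun o => if o = some m then 0 else h p o)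
              (Finset.mem_univ (some m))]
          rw [if_pos rfl, zero_add, add_sub_cancel_left]
          exact Finset.sum_congr rfl fun o ho => by rw [if_neg (Finset.ne_of_mem_erase ho)]
        rw [e2]
        have e3 : ∑ o, h p o = if r p = none then 1 + ∑ j, |mm p j| else 1 := sum_abs_mx (mm p) (r p)
        rw [e3]
        by_cases hrn : r p = none
        · rw [if_pos hrn, hhm p, if_neg (by rw [mem_sup1]; simpa using hrn)]
          have e4 : ∑ j, |mm p j| = 1 / ((p : ℕ) : ℝ) + ((k : ℝ) - 1) * ee p := by
            rw [← Finset.add_sum_erase Finset.univ (fun j => |mm p j|) (Finset.mem_univ m)]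
            rw [hmm1 p, abs_neg, abs_of_nonneg (by positivity)]
            congr 1
            rw [Finset.sum_congr rfl (g := fun _ => ee (p : ℕ)) (fun j hj => by
              rw [hmm2 p j (Finset.ne_of_mem_erase hj), abs_of_nonneg (hee p)])]
            rw [Finset.sum_const, Finset.card_erase_of_mem (Finset.mem_univ m), Finset.card_univ,
              Fintype.card_fin, nsmul_eq_mul]
            congr 1
            have : 1 ≤ k := Fin.pos m
            push_cast [Nat.cast_sub this]
            ring
          rw [e4]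
          linarith
        · rw [if_neg hrn, hhm p, if_pos (by rw [mem_sup1]; exact hrn)]
          linarith [hy0 p]
  rw [hev1]
  have hG0 := GG_nonneg hg r
  have : GG g r * Sr * (2 - Pi') = GG g r * (2 * Sr - Sr * Pi') := by ring
  rw [this]
  exact mul_le_mul_of_nonneg_left (by linarith) hG0

end Pool.Agent.H90.MT
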