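import Pool.Agent.H90.MT.T4a

/-! Sums over tuples. -/

set_option autoImplicit false
open Finset

namespace Pool.Agent.H90.MT

variable {P : Finset ℕ} {k : ℕ}

/-- the local factor -/
noncomputable def ff (g : ℕ → ℝ) (D : Finset ℕ) : ℝ := g (∏ p ∈ D, p) ^ 2 * ∏ p ∈ D, (1 / (p : ℝ))

theorem ff_nonneg (g : ℕ → ℝ) (D : Finset ℕ) : 0 ≤ ff g D :=
  mul_nonneg (sq_nonneg _) (Finset.prod_nonneg fun p _ => by positivity)

theorem ff_empty {g : ℕ → ℝ} (hg : GOK P g) : ff g ∅ = 1 := by
  unfold ff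
  rw [Finset.prod_empty, Finset.prod_empty, hg.one]
  norm_num

/-- tuples with `m`-th coordinate empty -/
noncomputable def TT (P : Finset ℕ) (m : Fin k) : Finset (Fin k → Finset ℕ) :=
  Fintype.piFinset (fun j => if j = m then {∅} else P.powerset)

theorem mem_TT {P : Finset ℕ} {m : Fin k} {D : Fin k → Finset ℕ} :
    D ∈ TT P m ↔ D m = ∅ ∧ ∀ j, D j ⊆ P := by
  unfold TT
  rw [Fintype.mem_piFinset]
  constructor
  · intro h
    have hm := h m
    rw [if_pos rfl, Finset.mem_singleton] at hm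
    refine ⟨hm, fun j => ?_⟩
    by_cases hj : j = m
    · rw [hj, hm]
      exact Finset.empty_subset _
    · have := h j
      rw [if_neg hj] at this
      exact Finset.mem_powerset.1 this
  · rintro ⟨h1, h2⟩ j
    split_ifs with hj
    · rw [hj, h1]
      exact Finset.mem_singleton_self _
    · exact Finset.mem_powerset.2 (h2 j)

theorem sum_TT (P : Finset ℕ) (m : Fin k) (φ : Fin k → Finset ℕ → ℝ) :
    ∑ D ∈ TT P m, ∏ j, φ j (D j) = ∏ j, (if j = m then φ j ∅ else ∑ D ∈ P.powerset, φ j D) := by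
  unfold TT
  rw [← Finset.prod_univ_sum]
  refine Finset.prod_congr rfl fun j _ => ?_
  split_ifs
  · rw [Finset.sum_singleton]
  · rfl

theorem prod_ite_pow (m : Fin k) (x : ℝ) : ∏ j : Fin k, (if j = m then 1 else x) = x ^ (k - 1) := by
  rw [← Finset.mul_prod_erase Finset.univ _ (Finset.mem_univ m), if_pos rfl, one_mul,
    Finset.prod_congr rfl (g := fun _ => x) (fun j hj => if_neg (Finset.ne_of_mem_erase hj)),
    Finset.prod_const, Finset.card_erase_of_mem (Finset.mem_univ m), Finset.card_univ, Fintype.card_fin]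

theorem prod_ite_pow2 (m i : Fin k) (him : i ≠ m) (x y : ℝ) :
    ∏ j : Fin k, (if j = m then 1 else if j = i then y else x) = y * x ^ (k - 2) := by
  rw [← Finset.mul_prod_erase Finset.univ _ (Finset.mem_univ m), if_pos rfl, one_mul]
  have hi : i ∈ Finset.univ.erase m := Finset.mem_erase.2 ⟨him, Finset.mem_univ i⟩
  rw [← Finset.mul_prod_erase _ _ hi, if_neg him, if_pos rfl]
  rw [Finset.prod_congr rfl (g := fun _ => x) (fun j hj => by
    rw [if_neg (Finset.ne_of_mem_erase (Finset.mem_of_mem_erase hj)), if_neg (Finset.ne_of_mem_erase hj)])]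
  rw [Finset.prod_const, Finset.card_erase_of_mem hi, Finset.card_erase_of_mem (Finset.mem_univ m),
    Finset.card_univ, Fintype.card_fin]
  rfl

theorem A2_ff (P : Finset ℕ) (g : ℕ → ℝ) : A2 P g = ∑ D ∈ P.powerset, ff g D := A2_eq P g

theorem A2_nonneg (P : Finset ℕ) (g : ℕ → ℝ) : 0 ≤ A2 P g := by
  rw [A2_ff]
  exact Finset.sum_nonneg fun D _ => ff_nonneg g D

theorem B1_ff (P : Finset ℕ) (g : ℕ → ℝ) :
    B1 P g = ∑ D ∈ P.powerset, ff g D * Real.log ((∏ p ∈ D, p : ℕ) : ℝ) := by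
  unfold B1 ff
  refine Finset.sum_congr rfl fun D _ => ?_
  rw [Finset.prod_div_distrib, Finset.prod_const_one, Nat.cast_prod]
  ring

/-- total mass -/
theorem sum_TT_one {g : ℕ → ℝ} (hg : GOK P g) (m : Fin k) :
    ∑ D ∈ TT P m, ∏ j, ff g (D j) = A2 P g ^ (k - 1) := by
  rw [sum_TT P m (fun _ => ff g), ff_empty hg, ← A2_ff, prod_ite_pow]

/-- log moment -/
theorem sum_TT_log {g : ℕ → ℝ} (hg : GOK P g) (m i : Fin k) :
    ∑ D ∈ TT P m, (∏ j, ff g (D j)) * Real.log ((∏ p ∈ D i, p : ℕ) : ℝ) =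
      if i = m then 0 else B1 P g * A2 P g ^ (k - 2) := by
  have e1 : ∀ D : Fin k → Finset ℕ, (∏ j, ff g (D j)) * Real.log ((∏ p ∈ D i, p : ℕ) : ℝ) =
      ∏ j, (ff g (D j) * (if j = i then Real.log ((∏ p ∈ D j, p : ℕ) : ℝ) else 1)) := by
    intro D
    rw [Finset.prod_mul_distrib, Finset.prod_ite_eq' Finset.univ i]
    simp
  rw [Finset.sum_congr rfl fun D _ => e1 D]
  rw [sum_TT P m (fun j D => ff g D * (if j = i then Real.log ((∏ p ∈ D, p : ℕ) : ℝ) else 1))]
  split_ifs with him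
  · refine Finset.prod_eq_zero (Finset.mem_univ m) ?_
    rw [if_pos rfl, if_pos him.symm]
    simp
  · rw [← prod_ite_pow2 m i him (A2 P g) (B1 P g)]
    refine Finset.prod_congr rfl fun j _ => ?_
    by_cases hjm : j = m
    · rw [if_pos hjm, if_pos hjm, ff_empty hg, if_neg (fun h => him (h.symm.trans hjm)), one_mul]
    · rw [if_neg hjm, if_neg hjm]
      by_cases hji : j = i
      · rw [if_pos hji, B1_ff]
        refine Finset.sum_congr rfl fun D _ => ?_
        rw [if_pos hji]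
      · rw [if_neg hji, A2_ff]
        refine Finset.sum_congr rfl fun D _ => ?_
        rw [if_neg hji, mul_one]

theorem sum_ff_mem {g : ℕ → ℝ} (hg : GOK P g) (p : ℕ) (hp : p ∈ P) :
    ∑ D ∈ P.powerset, ff g D * (if p ∈ D then 1 else 0) ≤ (1 / (p : ℝ)) * A2 P g := by
  have h := sum_powerset_mem (fun p => 1 / (p : ℝ)) P (fun p _ => by positivity) p hp
    (fun D => g (∏ p ∈ D, p) ^ 2) (fun D _ => sq_nonneg _)
    (fun D hD D' hD' => pow_le_pow_left₀ (hg.nonneg D hD) (hg.anti D hD D' hD') 2)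
  rw [A2_eq]
  refine le_trans (le_of_eq ?_) h
  refine Finset.sum_congr rfl fun D _ => ?_
  unfold ff
  split_ifs <;> simp

/-- mass of tuples with `p ∈ D i` -/
theorem sum_TT_mem {g : ℕ → ℝ} (hg : GOK P g) (m i : Fin k) (p : ℕ) (hp : p ∈ P) :
    ∑ D ∈ TT P m, (∏ j, ff g (D j)) * (if p ∈ D i then 1 else 0) ≤ (1 / (p : ℝ)) * A2 P g ^ (k - 1) := by
  have e1 : ∀ D : Fin k → Finset ℕ, (∏ j, ff g (D j)) * (if p ∈ D i then (1 : ℝ) else 0) =
      ∏ j, (ff g (D j) * (if j = i then (if p ∈ D j then (1 : ℝ) else 0) else 1)) := by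
    intro D
    rw [Finset.prod_mul_distrib, Finset.prod_ite_eq' Finset.univ i]
    simp
  rw [Finset.sum_congr rfl fun D _ => e1 D]
  rw [sum_TT P m (fun j D => ff g D * (if j = i then (if p ∈ D then (1 : ℝ) else 0) else 1))]
  have e2 : (1 / (p : ℝ)) * A2 P g ^ (k - 1) =
      ∏ j : Fin k, ((if j = m then 1 else A2 P g) * (if j = i then 1 / (p : ℝ) else 1)) := by
    rw [Finset.prod_mul_distrib, prod_ite_pow, Finset.prod_ite_eq' Finset.univ i]
    simp
    ring
  rw [e2]
  have hp0 : (0 : ℝ) ≤ 1 / (p : ℝ) := by positivity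
  refine Finset.prod_le_prod (fun j _ => ?_) fun j _ => ?_
  · have hI : ∀ D : Finset ℕ, (0 : ℝ) ≤ ff g D * (if j = i then (if p ∈ D then (1 : ℝ) else 0) else 1) :=
      fun D => mul_nonneg (ff_nonneg g D) (by split_ifs <;> norm_num)
    by_cases hjm : j = m
    · rw [if_pos hjm]
      exact hI ∅
    · rw [if_neg hjm]
      exact Finset.sum_nonneg fun D _ => hI D
  · by_cases hjm : j = m
    · rw [if_pos hjm, if_pos hjm, ff_empty hg]
      by_cases hji : j = i
      · rw [if_pos hji, if_pos hji]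
        simp
      · rw [if_neg hji, if_neg hji]
    · rw [if_neg hjm, if_neg hjm]
      by_cases hji : j = i
      · simp only [if_pos hji]
        rw [mul_comm (A2 P g)]
        exact sum_ff_mem hg p hp
      · simp only [if_neg hji, mul_one]
        rw [A2_ff]

/-- mass of tuples with `p ∈ D i ∩ D l` -/
theorem sum_TT_mem2 {g : ℕ → ℝ} (hg : GOK P g) (m i l : Fin k) (hil : i ≠ l) (p : ℕ) (hp : p ∈ P) :
    ∑ D ∈ TT P m, (∏ j, ff g (D j)) * (if p ∈ D i ∧ p ∈ D l then 1 else 0) ≤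
      (1 / (p : ℝ)) ^ 2 * A2 P g ^ (k - 1) := by
  have e1 : ∀ D : Fin k → Finset ℕ, (∏ j, ff g (D j)) * (if p ∈ D i ∧ p ∈ D l then (1 : ℝ) else 0) =
      ∏ j, (ff g (D j) * (if j = i ∨ j = l then (if p ∈ D j then (1 : ℝ) else 0) else 1)) := by
    intro D
    rw [Finset.prod_mul_distrib]
    congr 1
    have : ∀ j, (if j = i ∨ j = l then (if p ∈ D j then (1 : ℝ) else 0) else 1) =
        (if j = i then (if p ∈ D j then (1 : ℝ) else 0) else 1) *
        (if j = l then (if p ∈ D j then (1 : ℝ) else 0) else 1) := by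
      intro j
      by_cases h1 : j = i
      · have h2 : ¬ (j = l) := fun h => hil (h1.symm.trans h)
        simp [h1, hil]
      · simp [h1]
    rw [Finset.prod_congr rfl fun j _ => this j, Finset.prod_mul_distrib,
      Finset.prod_ite_eq' Finset.univ i, Finset.prod_ite_eq' Finset.univ l]
    simp only [Finset.mem_univ, if_true]
    by_cases h1 : p ∈ D i <;> by_cases h2 : p ∈ D l <;> simp [h1, h2]
  rw [Finset.sum_congr rfl fun D _ => e1 D]
  rw [sum_TT P m (fun j D => ff g D * (if j = i ∨ j = l then (if p ∈ D then (1 : ℝ) else 0) else 1))]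
  have e2 : (1 / (p : ℝ)) ^ 2 * A2 P g ^ (k - 1) =
      ∏ j : Fin k, ((if j = m then 1 else A2 P g) *
        ((if j = i then 1 / (p : ℝ) else 1) * (if j = l then 1 / (p : ℝ) else 1))) := by
    rw [Finset.prod_mul_distrib, Finset.prod_mul_distrib, prod_ite_pow,
      Finset.prod_ite_eq' Finset.univ i, Finset.prod_ite_eq' Finset.univ l]
    simp
    ring
  rw [e2]
  have hp0 : (0 : ℝ) ≤ 1 / (p : ℝ) := by positivity
  refine Finset.prod_le_prod (fun j _ => ?_) fun j _ => ?_
  · have hI : ∀ D : Finset ℕ, (0 : ℝ) ≤ ff g D * (if j = i ∨ j = l then (if p ∈ D then (1 : ℝ) else 0) else 1) :=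
      fun D => mul_nonneg (ff_nonneg g D) (by split_ifs <;> norm_num)
    by_cases hjm : j = m
    · rw [if_pos hjm]
      exact hI ∅
    · rw [if_neg hjm]
      exact Finset.sum_nonneg fun D _ => hI D
  · by_cases hjm : j = m
    · rw [if_pos hjm, if_pos hjm, ff_empty hg]
      by_cases hji : j = i ∨ j = l
      · rw [if_pos hji]
        simp only [Finset.notMem_empty, if_false, mul_zero]
        refine mul_nonneg (by norm_num) (mul_nonneg ?_ ?_)
        · split_ifs
          · exact hp0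
          · norm_num
        · split_ifs
          · exact hp0
          · norm_num
      · rw [if_neg hji]
        push Not at hji
        rw [if_neg hji.1, if_neg hji.2]
        norm_num
    · rw [if_neg hjm, if_neg hjm]
      by_cases hji : j = i ∨ j = l
      · simp only [if_pos hji]
        refine (sum_ff_mem hg p hp).trans (le_of_eq ?_)
        rcases hji with h | h
        · have h2 : ¬ (j = l) := fun h' => hil (h.symm.trans h')
          rw [if_pos h, if_neg h2]
          ring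
        · have h2 : ¬ (j = i) := fun h' => hil (h'.symm.trans h)
          rw [if_neg h2, if_pos h]
          ring
      · simp only [if_neg hji, mul_one]
        push Not at hji
        rw [if_neg hji.1, if_neg hji.2, A2_ff]
        simp

theorem prod_one_sub_ge (s : Finset ℕ) (y : ℕ → ℝ) (h0 : ∀ p ∈ s, 0 ≤ y p) (h1 : ∀ p ∈ s, y p ≤ 1) :
    1 - ∑ p ∈ s, y p ≤ ∏ p ∈ s, (1 - y p) := by
  induction s using Finset.induction_on with
  | empty => simp
  | insert a s ha ih =>
    rw [Finset.sum_insert ha, Finset.prod_insert ha]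
    have ih' := ih (fun p hp => h0 p (Finset.mem_insert_of_mem hp)) (fun p hp => h1 p (Finset.mem_insert_of_mem hp))
    have ha0 := h0 a (Finset.mem_insert_self a s)
    have ha1 := h1 a (Finset.mem_insert_self a s)
    have hs : 0 ≤ ∑ p ∈ s, y p := Finset.sum_nonneg fun p hp => h0 p (Finset.mem_insert_of_mem hp)
    have h3 := mul_le_mul_of_nonneg_left ih' (sub_nonneg.2 ha1)
    nlinarith [mul_nonneg ha0 hs]

/-- the main-term sum over good colourings -/
theorem good_sum (hP : ∀ p ∈ P, p.Prime) {g : ℕ → ℝ} (hg : GOK P g) (m : Fin k) (R Q : ℝ) (hQ : 0 < Q)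
    (hQR : Q < R) (y : ℕ → ℝ) (hy0 : ∀ p ∈ P, 0 ≤ y p) (hy1 : ∀ p ∈ P, y p ≤ 1) :
    A2 P g ^ (k - 1) - ((k : ℝ) - 1) * (A2 P g) ^ (k - 2) * B1 P g / Real.log (R / Q) -
      (k : ℝ) * (∑ p ∈ P, y p / p) * A2 P g ^ (k - 1) -
      (k : ℝ) ^ 2 * (∑ p ∈ P, (1 / (p : ℝ)) ^ 2) * A2 P g ^ (k - 1) ≤
    ∑ r ∈ (Finset.univ.filter fun r : Col P k => cset r m = ∅ ∧ (nn r : ℝ) * Q ≤ R),
      GG g r ^ 2 * ∏ p ∈ sup1 r, ((1 / (p : ℝ)) * (1 - y p)) := by
  classical
  have hL : 0 < Real.log (R / Q) := Real.log_pos (by rw [lt_div_iff₀ hQ]; linarith)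
  set L := Real.log (R / Q) with hLdef
  -- step A: product ≥ 1 - sum
  set Y : (Fin k → Finset ℕ) → ℝ := fun D => ∑ j, ∑ p ∈ D j, y p with hY
  set w : (Fin k → Finset ℕ) → ℝ := fun D => ∏ j, ff g (D j) with hw
  have hw0 : ∀ D, 0 ≤ w D := fun D => Finset.prod_nonneg fun j _ => ff_nonneg g _
  set gd : Finset (Col P k) := Finset.univ.filter fun r : Col P k => cset r m = ∅ ∧ (nn r : ℝ) * Q ≤ R with hgd
  have hA : ∑ r ∈ gd, w (cset r) * (1 - Y (cset r)) ≤
      ∑ r ∈ gd, GG g r ^ 2 * ∏ p ∈ sup1 r, ((1 / (p : ℝ)) * (1 - y p)) := by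
    refine Finset.sum_le_sum fun r _ => ?_
    have e1 : GG g r ^ 2 * ∏ p ∈ sup1 r, ((1 / (p : ℝ)) * (1 - y p)) =
        w (cset r) * ∏ p ∈ sup1 r, (1 - y p) := by
      rw [Finset.prod_mul_distrib, prod_sup1_cset r (fun p => 1 / (p : ℝ)), hw]
      simp only [ff]
      rw [← GG_sq g r (fun p _ => 1 / (p : ℝ))]
      ring
    rw [e1]
    refine mul_le_mul_of_nonneg_left ?_ (hw0 _)
    rw [hY]
    simp only
    rw [← sum_sup1_cset r y]
    exact prod_one_sub_ge _ _ (fun p hp => hy0 p (sup1_subset r hp)) (fun p hp => hy1 p (sup1_subset r hp))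
  refine le_trans ?_ hA
  -- step B: pass to tuples
  set Dg : Finset (Fin k → Finset ℕ) := (TT P m).filter fun D =>
    (∀ i j, i ≠ j → Disjoint (D i) (D j)) ∧ ((∏ j, ∏ p ∈ D j, p : ℕ) : ℝ) * Q ≤ R with hDg
  have hB : ∑ r ∈ gd, w (cset r) * (1 - Y (cset r)) = ∑ D ∈ Dg, w D * (1 - Y D) := by
    have e1 : gd.image cset = Dg := by
      ext D
      rw [Finset.mem_image, hDg, Finset.mem_filter, mem_TT]
      constructor
      · rintro ⟨r, hr, rfl⟩
        obtain ⟨h1, h2⟩ := (Finset.mem_filter.1 hr).2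
        refine ⟨⟨h1, cset_subset r⟩, ?_, ?_⟩
        · intro i j hij
          rw [Finset.disjoint_left]
          intro x hx hx'
          obtain ⟨h3, h4⟩ := (mem_cset r i x).1 hx
          obtain ⟨_, h5⟩ := (mem_cset r j x).1 hx'
          rw [h4] at h5
          exact hij (Option.some.inj h5)
        · rw [← nn_eq]
          exact h2
      · rintro ⟨⟨h1, h2⟩, h3, h4⟩
        obtain ⟨r, hr⟩ := exists_col D h2 h3
        refine ⟨r, ?_, hr⟩
        rw [hgd, Finset.mem_filter]
        refine ⟨Finset.mem_univ _, ?_, ?_⟩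
        · rw [hr]
          exact h1
        · rw [nn_eq, hr]
          exact h4
    rw [← e1, Finset.sum_image]
    intro a _ b _ h
    exact cset_injective h
  rw [hB]
  -- step C: relax
  set lg : (Fin k → Finset ℕ) → ℝ := fun D => ∑ i, Real.log ((∏ p ∈ D i, p : ℕ) : ℝ) with hlg
  set co : (Fin k → Finset ℕ) → ℝ := fun D => ∑ x ∈ (Finset.univ : Finset (Fin k × Fin k)).filter (fun x => x.1 ≠ x.2),
    ∑ p ∈ P, (if p ∈ D x.1 ∧ p ∈ D x.2 then (1 : ℝ) else 0) with hco
  have hlog0 : ∀ D ∈ TT P m, ∀ i, 0 ≤ Real.log ((∏ p ∈ D i, p : ℕ) : ℝ) := fun D hD i => by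
    refine Real.log_nonneg ?_
    have : 1 ≤ ∏ p ∈ D i, p := Finset.one_le_prod' fun p hp => (hP p ((mem_TT.1 hD).2 i hp)).one_le
    exact_mod_cast this
  have hlg0 : ∀ D ∈ TT P m, 0 ≤ lg D := fun D hD => Finset.sum_nonneg fun i _ => hlog0 D hD i
  have hco0 : ∀ D, 0 ≤ co D := fun D => Finset.sum_nonneg fun x _ => Finset.sum_nonneg fun p _ => by
    split_ifs <;> norm_num
  have hY0 : ∀ D ∈ TT P m, 0 ≤ Y D := fun D hD => Finset.sum_nonneg fun j _ =>
    Finset.sum_nonneg fun p hp => hy0 p ((mem_TT.1 hD).2 j hp)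
  have hC : ∑ D ∈ TT P m, w D * (1 - Y D - lg D / L - co D) ≤ ∑ D ∈ Dg, w D * (1 - Y D) := by
    rw [hDg, Finset.sum_filter]
    refine Finset.sum_le_sum fun D hD => ?_
    split_ifs with h
    · refine mul_le_mul_of_nonneg_left ?_ (hw0 D)
      have := div_nonneg (hlg0 D hD) hL.le
      linarith [hco0 D]
    · refine mul_nonpos_of_nonneg_of_nonpos (hw0 D) ?_
      by_cases h1 : ∀ i j, i ≠ j → Disjoint (D i) (D j)
      · have h2 : R < ((∏ j, ∏ p ∈ D j, p : ℕ) : ℝ) * Q := by
          by_contra hcon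
          exact h ⟨h1, not_lt.1 hcon⟩
        have h3 : R / Q < ((∏ j, ∏ p ∈ D j, p : ℕ) : ℝ) := by
          rw [div_lt_iff₀ hQ]
          exact h2
        have h4 : L ≤ lg D := by
          have h5 : lg D = Real.log ((∏ j, ∏ p ∈ D j, p : ℕ) : ℝ) := by
            rw [Nat.cast_prod, Real.log_prod]
            intro i _
            have : 1 ≤ ∏ p ∈ D i, p := Finset.one_le_prod' fun p hp => (hP p ((mem_TT.1 hD).2 i hp)).one_le
            have h6 : (0 : ℝ) < ((∏ p ∈ D i, p : ℕ) : ℝ) := by exact_mod_cast this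
            exact h6.ne'
          rw [h5]
          exact Real.log_le_log (div_pos (hQ.trans hQR) hQ) h3.le
        have h5 : 1 ≤ lg D / L := by rwa [le_div_iff₀ hL, one_mul]
        linarith [hco0 D, hY0 D hD]
      · push Not at h1
        obtain ⟨i, j, hij, hd⟩ := h1
        rw [Finset.not_disjoint_iff] at hd
        obtain ⟨p, hp1, hp2⟩ := hd
        have hpP := (mem_TT.1 hD).2 i hp1
        have h6 : 1 ≤ co D := by
          calc (1 : ℝ) = if p ∈ D (i, j).1 ∧ p ∈ D (i, j).2 then (1 : ℝ) else 0 := by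
                rw [if_pos ⟨hp1, hp2⟩]
            _ ≤ ∑ p ∈ P, (if p ∈ D (i, j).1 ∧ p ∈ D (i, j).2 then (1 : ℝ) else 0) :=
                Finset.single_le_sum (f := fun p => if p ∈ D (i, j).1 ∧ p ∈ D (i, j).2 then (1 : ℝ) else 0)
                  (fun p _ => by split_ifs <;> norm_num) hpP
            _ ≤ co D := by
                rw [hco]
                refine Finset.single_le_sum (f := fun x : Fin k × Fin k =>
                  ∑ p ∈ P, (if p ∈ D x.1 ∧ p ∈ D x.2 then (1 : ℝ) else 0)) (fun x _ => ?_) ?_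
                · exact Finset.sum_nonneg fun p _ => by split_ifs <;> norm_num
                · rw [Finset.mem_filter]
                  exact ⟨Finset.mem_univ _, hij⟩
        have := div_nonneg (hlg0 D hD) hL.le
        linarith [hY0 D hD]
  refine le_trans ?_ hC
  have hsplit : ∑ D ∈ TT P m, w D * (1 - Y D - lg D / L - co D) =
      ∑ D ∈ TT P m, w D - ∑ D ∈ TT P m, w D * Y D - (∑ D ∈ TT P m, w D * lg D) / L -
        ∑ D ∈ TT P m, w D * co D := by
    rw [Finset.sum_div, ← Finset.sum_sub_distrib, ← Finset.sum_sub_distrib, ← Finset.sum_sub_distrib]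
    exact Finset.sum_congr rfl fun D _ => by ring
  rw [hsplit]
  have hAk : 0 ≤ A2 P g ^ (k - 1) := pow_nonneg (A2_nonneg P g) _
  have hS1 : ∑ D ∈ TT P m, w D = A2 P g ^ (k - 1) := sum_TT_one hg m
  have hS2 : ∑ D ∈ TT P m, w D * Y D ≤ (k : ℝ) * (∑ p ∈ P, y p / p) * A2 P g ^ (k - 1) := by
    have e1 : ∀ D ∈ TT P m, w D * Y D = ∑ j : Fin k, ∑ p ∈ P, y p * (w D * (if p ∈ D j then 1 else 0)) := by
      intro D hD
      rw [hY]
      simp only
      rw [Finset.mul_sum]
      refine Finset.sum_congr rfl fun j _ => ?_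
      rw [Finset.mul_sum]
      have h2 := (mem_TT.1 hD).2 j
      rw [← Finset.sum_subset h2 (f := fun p => y p * (w D * (if p ∈ D j then 1 else 0)))
        (fun p _ hp => by rw [if_neg hp]; ring)]
      exact Finset.sum_congr rfl fun p hp => by rw [if_pos hp]; ring
    rw [Finset.sum_congr rfl e1, Finset.sum_comm]
    calc ∑ j : Fin k, ∑ D ∈ TT P m, ∑ p ∈ P, y p * (w D * (if p ∈ D j then 1 else 0))
        ≤ ∑ _j : Fin k, (∑ p ∈ P, y p / p) * A2 P g ^ (k - 1) := by
          refine Finset.sum_le_sum fun j _ => ?_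
          rw [Finset.sum_comm, Finset.sum_mul]
          refine Finset.sum_le_sum fun p hp => ?_
          rw [← Finset.mul_sum]
          have := mul_le_mul_of_nonneg_left (sum_TT_mem hg m j p hp) (hy0 p hp)
          refine this.trans (le_of_eq ?_)
          ring
      _ = _ := by
          rw [Finset.sum_const, Finset.card_univ, Fintype.card_fin, nsmul_eq_mul]
          ring
  have hS3 : ∑ D ∈ TT P m, w D * lg D = ((k : ℝ) - 1) * (A2 P g) ^ (k - 2) * B1 P g := by
    simp_rw [hlg, Finset.mul_sum]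
    rw [Finset.sum_comm]
    rw [Finset.sum_congr rfl fun i _ => sum_TT_log hg m i]
    rw [← Finset.add_sum_erase Finset.univ _ (Finset.mem_univ m), if_pos rfl, zero_add]
    rw [Finset.sum_congr rfl (g := fun _ => B1 P g * A2 P g ^ (k - 2))
      (fun j hj => if_neg (Finset.ne_of_mem_erase hj))]
    rw [Finset.sum_const, Finset.card_erase_of_mem (Finset.mem_univ m), Finset.card_univ,
      Fintype.card_fin, nsmul_eq_mul]
    have : 1 ≤ k := Fin.pos m
    push_cast [Nat.cast_sub this]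
    ring
  have hS4 : ∑ D ∈ TT P m, w D * co D ≤ (k : ℝ) ^ 2 * (∑ p ∈ P, (1 / (p : ℝ)) ^ 2) * A2 P g ^ (k - 1) := by
    have e1 : ∀ D ∈ TT P m, w D * co D =
        ∑ x ∈ (Finset.univ : Finset (Fin k × Fin k)).filter (fun x => x.1 ≠ x.2),
          ∑ p ∈ P, (w D * (if p ∈ D x.1 ∧ p ∈ D x.2 then 1 else 0)) := by
      intro D _
      rw [hco]
      simp only
      rw [Finset.mul_sum]
      refine Finset.sum_congr rfl fun x _ => ?_
      rw [Finset.mul_sum]
    rw [Finset.sum_congr rfl e1, Finset.sum_comm]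
    have hc0 : 0 ≤ (∑ p ∈ P, (1 / (p : ℝ)) ^ 2) * A2 P g ^ (k - 1) :=
      mul_nonneg (Finset.sum_nonneg fun p _ => sq_nonneg _) hAk
    calc ∑ x ∈ (Finset.univ : Finset (Fin k × Fin k)).filter (fun x => x.1 ≠ x.2),
          ∑ D ∈ TT P m, ∑ p ∈ P, (w D * (if p ∈ D x.1 ∧ p ∈ D x.2 then 1 else 0))
        ≤ ∑ _x ∈ (Finset.univ : Finset (Fin k × Fin k)).filter (fun x => x.1 ≠ x.2),
          (∑ p ∈ P, (1 / (p : ℝ)) ^ 2) * A2 P g ^ (k - 1) := by
          refine Finset.sum_le_sum fun x hx => ?_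
          rw [Finset.sum_comm, Finset.sum_mul]
          refine Finset.sum_le_sum fun p hp => ?_
          exact sum_TT_mem2 hg m x.1 x.2 (Finset.mem_filter.1 hx).2 p hp
      _ ≤ ∑ _x : Fin k × Fin k, (∑ p ∈ P, (1 / (p : ℝ)) ^ 2) * A2 P g ^ (k - 1) :=
          Finset.sum_le_sum_of_subset_of_nonneg (Finset.filter_subset _ _) (fun _ _ _ => hc0)
      _ = _ := by
          rw [Finset.sum_const, Finset.card_univ, Fintype.card_prod, Fintype.card_fin, nsmul_eq_mul]
          push_cast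
          ring
  rw [hS1, hS3]
  linarith

end Pool.Agent.H90.MT
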