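import Pool.Agent.H90.MT.Spec

/-! Tensorisation of quadratic form inequalities and the one-prime (in)equalities. -/

set_option autoImplicit false
open Finset

namespace Pool.Agent.H90.MT

section tensor
universe u
variable {K : Type} [Fintype K]

/-- one quadratic form -/
noncomputable def QF {ι : Type u} [Fintype ι] (W : ι → K → ℝ) (Φ : ι → K → K → ℝ)
    (z : (ι → K) → ℝ) : ℝ := by
  classical
  exact ∑ a : ι → K, (∏ i, W i (a i)) * (∑ c : ι → K, z c * ∏ i, Φ i (c i) (a i)) ^ 2

theorem QF_eq {ι : Type u} [Fintype ι] [DecidableEq ι] (W : ι → K → ℝ) (Φ : ι → K → K → ℝ)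
    (z : (ι → K) → ℝ) :
    QF W Φ z = ∑ a : ι → K, (∏ i, W i (a i)) * (∑ c : ι → K, z c * ∏ i, Φ i (c i) (a i)) ^ 2 := by
  have h : (fun a b => Classical.propDecidable (a = b)) = ‹DecidableEq ι› := Subsingleton.elim _ _
  subst h
  rfl

/-- the property used in the induction -/
def TP (K : Type) [Fintype K] (ι : Type u) [Fintype ι] : Prop :=
  ∀ (W W' : ι → K → ℝ) (Φ Φ' : ι → K → K → ℝ), (∀ i a, 0 ≤ W i a) → (∀ i a, 0 ≤ W' i a) →
    (∀ i (v : K → ℝ), ∑ a, W i a * (∑ c, v c * Φ i c a) ^ 2 ≤ ∑ a, W' i a * (∑ c, v c * Φ' i c a) ^ 2) →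
    ∀ z : (ι → K) → ℝ, QF W Φ z ≤ QF W' Φ' z

theorem TP_equiv (α β : Type u) [Fintype α] [Fintype β] (e : α ≃ β) (h : TP K α) : TP K β := by
  classical
  intro W W' Φ Φ' hW hW' hone z
  have key : ∀ (V : β → K → ℝ) (Ψ : β → K → K → ℝ), QF V Ψ z =
      QF (fun i => V (e i)) (fun i => Ψ (e i)) (fun c : α → K => z (fun b => c (e.symm b))) := by
    intro V Ψ
    rw [QF_eq, QF_eq]
    symm
    refine Fintype.sum_equiv (Equiv.arrowCongr e (Equiv.refl K)) _ _ ?_
    intro a
    congr 1
    · refine Fintype.prod_equiv e _ _ ?_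
      intro i
      simp [Equiv.arrowCongr]
    · congr 1
      refine Fintype.sum_equiv (Equiv.arrowCongr e (Equiv.refl K)) _ _ ?_
      intro c
      congr 1
      refine Fintype.prod_equiv e _ _ ?_
      intro i
      simp [Equiv.arrowCongr]
  rw [key W Φ, key W' Φ']
  exact h (fun i => W (e i)) (fun i => W' (e i)) (fun i => Φ (e i)) (fun i => Φ' (e i))
    (fun i a => hW _ _) (fun i a => hW' _ _) (fun i v => hone _ _) _

theorem TP_empty : TP K PEmpty.{u+1} := by
  classical
  intro W W' Φ Φ' hW hW' hone z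
  rw [QF_eq, QF_eq]
  simp

theorem QF_option {α : Type u} [Fintype α] (W : Option α → K → ℝ) (Φ : Option α → K → K → ℝ)
    (z : (Option α → K) → ℝ) : QF W Φ z = ∑ a0 : K, W none a0 *
      QF (fun i => W (some i)) (fun i => Φ (some i))
        (fun c => ∑ c0 : K, z (fun o => Option.elim o c0 c) * Φ none c0 a0) := by
  classical
  rw [QF_eq]
  have e1 : ∀ F : (Option α → K) → ℝ, ∑ a, F a = ∑ a0 : K, ∑ a' : α → K, F (fun o => Option.elim o a0 a') := by
    intro F
    rw [← Fintype.sum_prod_type']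
    symm
    refine Fintype.sum_equiv (Equiv.piOptionEquivProd (β := fun _ : Option α => K)).symm _ _ ?_
    rintro ⟨a0, a'⟩
    congr 1
    funext o
    cases o <;> rfl
  rw [e1]
  refine Finset.sum_congr rfl ?_
  intro a0 _
  rw [QF_eq, Finset.mul_sum]
  refine Finset.sum_congr rfl ?_
  intro a' _
  rw [Fintype.prod_option]
  simp only [Option.elim_none, Option.elim_some]
  rw [mul_assoc]
  congr 3
  rw [e1, Finset.sum_comm]
  refine Finset.sum_congr rfl ?_
  intro c' _
  rw [Finset.sum_mul]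
  refine Finset.sum_congr rfl ?_
  intro c0 _
  rw [Fintype.prod_option]
  simp only [Option.elim_none, Option.elim_some]
  ring

theorem QF_nonneg {ι : Type u} [Fintype ι] (W : ι → K → ℝ) (Φ : ι → K → K → ℝ)
    (hW : ∀ i a, 0 ≤ W i a) (z : (ι → K) → ℝ) : 0 ≤ QF W Φ z := by
  classical
  rw [QF_eq]
  exact Finset.sum_nonneg fun a _ => mul_nonneg (Finset.prod_nonneg fun i _ => hW _ _) (sq_nonneg _)

theorem TP_option (α : Type u) [Fintype α] (h : TP K α) : TP K (Option α) := by
  classical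
  intro W W' Φ Φ' hW hW' hone z
  rw [QF_option, QF_option]
  calc ∑ a0 : K, W none a0 * QF (fun i => W (some i)) (fun i => Φ (some i))
        (fun c => ∑ c0 : K, z (fun o => Option.elim o c0 c) * Φ none c0 a0)
      ≤ ∑ a0 : K, W none a0 * QF (fun i => W' (some i)) (fun i => Φ' (some i))
        (fun c => ∑ c0 : K, z (fun o => Option.elim o c0 c) * Φ none c0 a0) := by
        refine Finset.sum_le_sum fun a0 _ => mul_le_mul_of_nonneg_left ?_ (hW _ _)
        exact h (fun i => W (some i)) (fun i => W' (some i)) (fun i => Φ (some i))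
          (fun i => Φ' (some i)) (fun i a => hW _ _) (fun i a => hW' _ _) (fun i v => hone _ _) _
    _ = ∑ a' : α → K, (∏ i, W' (some i) (a' i)) * ∑ a0 : K, W none a0 *
          (∑ c0 : K, (∑ c' : α → K, z (fun o => Option.elim o c0 c') * ∏ i, Φ' (some i) (c' i) (a' i)) *
            Φ none c0 a0) ^ 2 := by
        simp_rw [QF_eq, Finset.mul_sum]
        rw [Finset.sum_comm]
        refine Finset.sum_congr rfl fun a' _ => Finset.sum_congr rfl fun a0 _ => ?_
        rw [← mul_assoc, ← mul_assoc, mul_comm (W none a0)]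
        congr 2
        simp_rw [Finset.sum_mul]
        rw [Finset.sum_comm]
        refine Finset.sum_congr rfl fun c0 _ => Finset.sum_congr rfl fun c' _ => ?_
        ring
    _ ≤ ∑ a' : α → K, (∏ i, W' (some i) (a' i)) * ∑ a0 : K, W' none a0 *
          (∑ c0 : K, (∑ c' : α → K, z (fun o => Option.elim o c0 c') * ∏ i, Φ' (some i) (c' i) (a' i)) *
            Φ' none c0 a0) ^ 2 := by
        refine Finset.sum_le_sum fun a' _ => mul_le_mul_of_nonneg_left ?_
          (Finset.prod_nonneg fun i _ => hW' _ _)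
        exact hone none _
    _ = ∑ a0 : K, W' none a0 * QF (fun i => W' (some i)) (fun i => Φ' (some i))
        (fun c => ∑ c0 : K, z (fun o => Option.elim o c0 c) * Φ' none c0 a0) := by
        simp_rw [QF_eq, Finset.mul_sum]
        rw [Finset.sum_comm]
        refine Finset.sum_congr rfl fun a0 _ => Finset.sum_congr rfl fun a' _ => ?_
        rw [← mul_assoc, ← mul_assoc, mul_comm (W' none a0)]
        congr 2
        simp_rw [Finset.sum_mul]
        rw [Finset.sum_comm]
        refine Finset.sum_congr rfl fun c' _ => Finset.sum_congr rfl fun c0 _ => ?_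
        ring

theorem TP_all (ι : Type u) [Fintype ι] : TP K ι := by
  refine Fintype.induction_empty_option (P := fun (ι : Type u) [Fintype ι] => TP K ι) ?_ ?_ ?_ ι
  · intro α β _ e h
    letI : Fintype α := Fintype.ofEquiv β e.symm
    exact TP_equiv α β e h
  · exact TP_empty
  · intro α _ h
    exact TP_option α h

/-- **Tensorisation.** -/
theorem tensor {ι : Type u} [Fintype ι] [DecidableEq ι] (W W' : ι → K → ℝ) (Φ Φ' : ι → K → K → ℝ)
    (hW : ∀ i a, 0 ≤ W i a) (hW' : ∀ i a, 0 ≤ W' i a)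
    (hone : ∀ i (v : K → ℝ), ∑ a, W i a * (∑ c, v c * Φ i c a) ^ 2 ≤
      ∑ a, W' i a * (∑ c, v c * Φ' i c a) ^ 2)
    (z : (ι → K) → ℝ) :
    ∑ a : ι → K, (∏ i, W i (a i)) * (∑ c : ι → K, z c * ∏ i, Φ i (c i) (a i)) ^ 2 ≤
      ∑ a : ι → K, (∏ i, W' i (a i)) * (∑ c : ι → K, z c * ∏ i, Φ' i (c i) (a i)) ^ 2 := by
  rw [← QF_eq, ← QF_eq]
  exact TP_all ι W W' Φ Φ' hW hW' hone z

end tensor

end Pool.Agent.H90.MT
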